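import Pool.Agent.H44.NP.WIT
import Pool.Agent.H79.Par.PerFin

/-!
# Module DZI: the order of the fixed point of the iterate is finite

`Dz g`: the partial derivative in `z`. `hz p (v, z) = f_v^p (z) - z`.

PROOFS. `dz_an`: as `td_an`. `hz_ord`: suppose `(Dz^[j] (hz p)) q = 0` for all `j`. The function `w ↦ hz p (q.1, w)` is analytic near `q.2` and its `j`-th derivative at `q.2` is `(Dz^[j] (hz p)) q` (as `td_line`: induction, chain rule along `w ↦ (q.1, w)`), so it vanishes near `q.2`. For `w` near `q.2` with no denominator vanishing (`gp_open`),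
`(Rf q.1)^[p] w = wi p (q.1, w) = w` (`rat_coe_of_ne`, induction), infinitely many `w`: contradiction with `per_finite` (H79/Par/PerFin), `d ≥ 2`.
-/

set_option autoImplicit false

open Filter Topology Metric Set Polynomial

namespace Pool.Agent.H44.NP

open Pool.Agent.H44.Fatou Pool.Agent.H79.Eul Pool.Agent.H79.Par Pool.Agent.H47.NN

variable {d : ℕ}

/-- the partial derivative in `z` -/
noncomputable def Dz (g : E d × ℂ → ℂ) : E d × ℂ → ℂ := fun q => fderiv ℂ g q (0, 1)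

/-- `f_v^p (z) - z` -/
noncomputable def hz (p : ℕ) : E d × ℂ → ℂ := fun q => wi p q - q.2

theorem dz_an {g : E d × ℂ → ℂ} {U : Set (E d × ℂ)} (h : AnalyticOnNhd ℂ g U) :
    AnalyticOnNhd ℂ (Dz g) U := by
  intro q hq
  have h1 : AnalyticAt ℂ (fderiv ℂ g) q := (h q hq).fderiv
  exact ((ContinuousLinearMap.apply ℂ ℂ ((0 : E d), (1 : ℂ))).analyticAt _).comp h1

theorem dz_it {g : E d × ℂ → ℂ} {U : Set (E d × ℂ)} (h : AnalyticOnNhd ℂ g U) (j : ℕ) :
    AnalyticOnNhd ℂ (Dz^[j] g) U := by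
  induction j with
  | zero => exact h
  | succ j ih =>
    rw [Function.iterate_succ_apply']
    exact dz_an ih

theorem hz_an (p : ℕ) : AnalyticOnNhd ℂ (hz p : E d × ℂ → ℂ) (Gp p) :=
  fun _ hq => (wi_an p hq).sub analyticAt_snd

private theorem dz_line {g : E d × ℂ → ℂ} {U : Set (E d × ℂ)} (hU : IsOpen U)
    (h : AnalyticOnNhd ℂ g U) (v : E d) (j : ℕ) :
    ∀ w : ℂ, (v, w) ∈ U → iteratedDeriv j (fun s : ℂ => g (v, s)) w = (Dz^[j] g) (v, w) := by
  have hc : Continuous fun s : ℂ => ((v, s) : E d × ℂ) := by fun_prop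
  induction j with
  | zero =>
    intro w _
    rw [iteratedDeriv_zero, Function.iterate_zero, id]
  | succ j ih =>
    intro w hw
    rw [iteratedDeriv_succ, Function.iterate_succ_apply']
    have hev : iteratedDeriv j (fun s : ℂ => g (v, s)) =ᶠ[𝓝 w] fun s => (Dz^[j] g) (v, s) := by
      have h1 : ∀ᶠ s in 𝓝 w, (v, s) ∈ U := hc.continuousAt.eventually (hU.mem_nhds hw)
      filter_upwards [h1] with s hs
      exact ih s hs
    rw [hev.deriv_eq]
    have h2 : HasFDerivAt (Dz^[j] g) (fderiv ℂ (Dz^[j] g) (v, w)) (v, w) :=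
      (dz_it h j (v, w) hw).differentiableAt.hasFDerivAt
    have h3 : HasDerivAt (fun s : ℂ => ((v, s) : E d × ℂ)) ((0 : E d), (1 : ℂ)) w :=
      (hasDerivAt_const w v).prodMk (hasDerivAt_id w)
    exact (h2.comp_hasDerivAt w h3).deriv

theorem wi_rf (j : ℕ) {q : E d × ℂ} (hq : q ∈ Gp j) :
    (Rf q.1)^[j] (q.2 : OnePoint ℂ) = ((wi j q : ℂ) : OnePoint ℂ) := by
  induction j with
  | zero => rfl
  | succ j ih =>
    rw [Function.iterate_succ_apply', ih (fun i hi => hq i (by omega))]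
    exact rat_coe_of_ne (hq j (by omega))

theorem hz_ord {p : ℕ} (hp : 0 < p) (hd : 2 ≤ d) {q : E d × ℂ} (hq : q ∈ Gp p)
    (hcop : IsCoprime (pol q.1.1) (pol q.1.2))
    (hdeg : max (pol q.1.1).natDegree (pol q.1.2).natDegree = d) :
    ∃ j, (Dz^[j] (hz p)) q ≠ 0 := by
  by_contra hcon
  push Not at hcon
  obtain ⟨v, z⟩ := q
  have hc : Continuous fun s : ℂ => ((v, s) : E d × ℂ) := by fun_prop
  have hφ : AnalyticAt ℂ (fun s : ℂ => hz p (v, s)) z := by
    have h1 : AnalyticAt ℂ (fun s : ℂ => ((v, s) : E d × ℂ)) z := analyticAt_const.prod analyticAt_id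
    exact (hz_an p (v, z) hq).fun_comp h1
  have h0 : ∀ j, iteratedDeriv j (fun s : ℂ => hz p (v, s)) z = 0 := fun j => by
    rw [dz_line (gp_open p) (hz_an p) v j z hq]
    exact hcon j
  have htop : analyticOrderAt (fun s : ℂ => hz p (v, s)) z = ⊤ := by
    refine ENat.eq_top_iff_forall_ge.2 fun n => ?_
    exact (natCast_le_analyticOrderAt_iff_iteratedDeriv_eq_zero hφ).2 fun i _ => h0 i
  have hev : ∀ᶠ s in 𝓝 z, hz p (v, s) = 0 := analyticOrderAt_eq_top.1 htop
  have hev2 : ∀ᶠ s in 𝓝 z, (v, s) ∈ (Gp p : Set (E d × ℂ)) :=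
    hc.continuousAt.eventually ((gp_open p).mem_nhds hq)
  have hfin := per_finite hcop (by rw [hdeg]; exact hd) hp
  have hinf : {s : ℂ | hz p (v, s) = 0 ∧ (v, s) ∈ (Gp p : Set (E d × ℂ))}.Infinite :=
    infinite_of_mem_nhds z (hev.and hev2)
  refine hinf ((hfin.preimage (f := fun s : ℂ => (s : OnePoint ℂ))
    OnePoint.coe_injective.injOn).subset ?_)
  rintro s ⟨hs, hg⟩
  show (rat (pol v.1) (pol v.2))^[p] (s : OnePoint ℂ) = s
  have h2 := wi_rf p hg
  have h3 : wi p (v, s) = s := sub_eq_zero.1 hs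
  rw [h3] at h2
  exact h2

end Pool.Agent.H44.NP
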