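import Pool.Agent.H44.NP.WIT
import Pool.Agent.H47.NN.MFC
import Pool.Agent.H47.NN.INF

/-!
# Module MFL: not all maps near `v` have a cycle with the multiplier `m`

PROOFS. `mf_near`: if all `w` near `v` have such a cycle, then so do the `w = (t • v.1, v.2)` for `t` near 1 (continuity), `pol (t • v.1) = C t * pol v.1` (`pol_smul`), so a neighbourhood of 1 (an infinite set) is contained in the finite set of `mfin`. `if_near`: for `t` near 1, `t ≠ 0` and `(t • v.1, v.2)` is `Gen` (`Gen.smul` in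
H47/NN/INF with `t⁻¹`, or directly) and `(Rf w)^[p] ∞ = ∞` gives `(hI d (C t * pol v.1) (pol v.2) p).2 = 0` (`hI_spec`, `pt_infty_iff`, as in `inf_null`), that is `(hIt d (pol v.1) (pol v.2) p).2.eval t = 0` for infinitely many `t`, so this polynomial is 0; but by `small` for small `t ≠ 0` infinity is not periodic.
-/

set_option autoImplicit false

open Filter Topology Metric Set Polynomial

namespace Pool.Agent.H44.NP

open Pool.Agent.H44.Fatou Pool.Agent.H79.Eul Pool.Agent.H79.Par Pool.Agent.H47.NN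

variable {d : ℕ}

private theorem mfl_tend (v : E d) : Tendsto (fun t : ℂ => ((t • v.1, v.2) : E d)) (𝓝 1) (𝓝 v) := by
  have h1 : Continuous (fun t : ℂ => ((t • v.1, v.2) : E d)) :=
    (continuous_id.smul continuous_const).prodMk continuous_const
  have h2 := h1.tendsto (1 : ℂ)
  have h3 : (((1 : ℂ) • v.1, v.2) : E d) = v := by rw [one_smul]
  rw [h3] at h2
  exact h2

theorem mf_near {p : ℕ} (hp : 0 < p) {v : E d} (h : Gen d (pol v.1) (pol v.2)) {m : ℂ}
    (hm : ‖m‖ = 1) : ¬ ∀ᶠ w in 𝓝 v, ∃ x : ℕ → ℂ, Cyc (pol w.1) (pol w.2) p x m := by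
  intro hcon
  have h1 := (mfl_tend v).eventually hcon
  have h2 := infinite_of_mem_nhds (1 : ℂ) h1
  apply h2
  refine (mfin h hp hm).subset fun t ht => ?_
  obtain ⟨x, hx⟩ := ht
  refine ⟨x, ?_⟩
  rw [← pol_smul]
  exact hx

theorem if_near {p : ℕ} (hp : 0 < p) {v : E d} (h : Gen d (pol v.1) (pol v.2)) :
    ¬ ∀ᶠ w in 𝓝 v, (hI d (pol w.1) (pol w.2) p).2 = 0 := by
  intro hcon
  have h1 := (mfl_tend v).eventually hcon
  have h2 := infinite_of_mem_nhds (1 : ℂ) h1
  obtain ⟨T, hT⟩ : ∃ T : Polynomial ℂ, T = (hIt d (pol v.1) (pol v.2) p).2 := ⟨_, rfl⟩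
  have hT0 : T ≠ 0 := by
    intro h0
    obtain ⟨ε, hε, hsm⟩ := small h hp
    have ht0 : ((ε / 2 : ℝ) : ℂ) ≠ 0 := by
      rw [Complex.ofReal_ne_zero]
      positivity
    have htn : ‖((ε / 2 : ℝ) : ℂ)‖ < ε := by
      rw [Complex.norm_real, Real.norm_eq_abs, abs_of_pos (by positivity)]
      linarith
    apply (hsm _ ht0 htn).2
    have hu : IsUnit (C ((ε / 2 : ℝ) : ℂ) : Polynomial ℂ) :=
      isUnit_C.2 (isUnit_iff_ne_zero.2 ht0)
    have hcop : IsCoprime (C ((ε / 2 : ℝ) : ℂ) * pol v.1) (pol v.2) :=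
      (isCoprime_mul_unit_left_left hu _ _).2 h.cop
    have hdg : Pool.Agent.H44.Fatou.dg (C ((ε / 2 : ℝ) : ℂ) * pol v.1) (pol v.2) = d := by
      unfold Pool.Agent.H44.Fatou.dg
      rw [natDegree_C_mul ht0, h.ha, h.hb, max_self]
    rw [(hI_spec hcop hdg p).2, pt_infty_iff, ← (hIt_eval d (pol v.1) (pol v.2) _ p).2, ← hT, h0,
      eval_zero]
  apply h2
  refine (Finset.finite_toSet T.roots.toFinset).subset fun t ht => ?_
  have h3 : (hI d (pol (t • v.1)) (pol v.2) p).2 = 0 := ht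
  show t ∈ (T.roots.toFinset : Set ℂ)
  rw [Finset.mem_coe, Multiset.mem_toFinset, mem_roots hT0, IsRoot.def, hT,
    (hIt_eval d (pol v.1) (pol v.2) t p).2, ← pol_smul]
  exact h3

end Pool.Agent.H44.NP
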