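import Pool.Agent.H47.NN.Defs

/-!
# Module IFT: the implicit function theorem, analytic version

PROOF. As in H47/NN/LOC (`theorem loc`), with `ContDiffAt ℂ ω` in place of `ContDiffAt ℂ 1`: `AnalyticAt.contDiffAt` (for `n = ω`), the functional `fderiv ℂ h q ∘L .inr ℂ (E d) ℂ` is invertible because its value at 1 is the derivative of `z ↦ h (q.1, z)` at `q.2`; `ContDiffAt.implicitFunction`,
`implicitFunction_apply_self`, `eventually_apply_implicitFunction`, `eventually_apply_eq_iff_implicitFunction`, `contDiffAt_implicitFunction`, `ContDiffAt.analyticAt` (at the centre) and `AnalyticAt.eventually_analyticAt`. `(v, ζ v) → q` as `v → q.1`, so `(v, ζ v) ∈ N` for `v` near `q.1`.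
-/

set_option autoImplicit false

open Filter Topology Metric Set

namespace Pool.Agent.H44.NP

open Pool.Agent.H79.Eul

variable {d : ℕ}

private theorem ift_inv (L : ℂ →L[ℂ] ℂ) (h : L 1 ≠ 0) : L.IsInvertible := by
  refine ⟨ContinuousLinearEquiv.unitsEquivAut ℂ (Units.mk0 (L 1) h), ?_⟩
  ext
  simp

theorem ift {h : E d × ℂ → ℂ} {q : E d × ℂ} (hh : AnalyticAt ℂ h q) (h0 : h q = 0)
    (h1 : fderiv ℂ h q (0, 1) ≠ 0) {N : Set (E d × ℂ)} (hN : N ∈ 𝓝 q) :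
    ∃ (r : ℝ) (ζ : E d → ℂ), 0 < r ∧ AnalyticOnNhd ℂ ζ (ball q.1 r) ∧
      (∀ v ∈ ball q.1 r, (v, ζ v) ∈ N ∧ h (v, ζ v) = 0) ∧
      ∀ v ∈ ball q.1 r, ∀ z ∈ ball q.2 r, h (v, z) = 0 → z = ζ v := by
  have cdf : ContDiffAt ℂ ⊤ h q := hh.contDiffAt
  have hL : (fderiv ℂ h q ∘L .inr ℂ (E d) ℂ) 1 ≠ 0 := by
    show (fderiv ℂ h q) ((ContinuousLinearMap.inr ℂ (E d) ℂ) 1) ≠ 0
    rw [ContinuousLinearMap.inr_apply]
    exact h1
  have hinv : (fderiv ℂ h q ∘L .inr ℂ (E d) ℂ).IsInvertible := ift_inv _ hL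
  have hn : (⊤ : WithTop ℕ∞) ≠ 0 := by simp
  obtain ⟨ζ, hζ⟩ : ∃ ζ : E d → ℂ, ζ = cdf.implicitFunction hn hinv := ⟨_, rfl⟩
  have z0 : ζ q.1 = q.2 := by
    rw [hζ]
    exact cdf.implicitFunction_apply_self hn hinv
  have z1 : ∀ᶠ t in 𝓝 q.1, h (t, ζ t) = 0 := by
    rw [hζ, ← h0]
    exact cdf.eventually_apply_implicitFunction hn hinv
  have z2 : ∀ᶠ v in 𝓝 q, h v = 0 ↔ ζ v.1 = v.2 := by
    rw [hζ, ← h0]
    exact cdf.eventually_apply_eq_iff_implicitFunction hn hinv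
  have z3 : ContDiffAt ℂ ⊤ ζ q.1 := by
    rw [hζ]
    exact cdf.contDiffAt_implicitFunction hn hinv
  have z4 : ∀ᶠ t in 𝓝 q.1, AnalyticAt ℂ ζ t := z3.analyticAt.eventually_analyticAt
  have zt : Tendsto (fun t => ((t, ζ t) : E d × ℂ)) (𝓝 q.1) (𝓝 q) := by
    have h1 : ContinuousAt (fun t => ((t, ζ t) : E d × ℂ)) q.1 :=
      continuousAt_id.prodMk z3.continuousAt
    have h2 : ((q.1, ζ q.1) : E d × ℂ) = q := by rw [z0]
    have h3 : Tendsto (fun t => ((t, ζ t) : E d × ℂ)) (𝓝 q.1) (𝓝 (q.1, ζ q.1)) := h1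
    rw [h2] at h3
    exact h3
  have b4 : ∀ᶠ t in 𝓝 q.1, ((t, ζ t) : E d × ℂ) ∈ N := zt.eventually hN
  obtain ⟨r1, hr1, hr1'⟩ := Metric.eventually_nhds_iff_ball.1 (z1.and (z4.and b4))
  obtain ⟨r2, hr2, hr2'⟩ := Metric.eventually_nhds_iff_ball.1 z2
  refine ⟨min r1 r2, ζ, lt_min hr1 hr2, fun v hv => ?_, fun v hv => ?_, fun v hv z hz hvz => ?_⟩
  · exact (hr1' v (ball_subset_ball (min_le_left _ _) hv)).2.1
  · obtain ⟨g1, -, g3⟩ := hr1' v (ball_subset_ball (min_le_left _ _) hv)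
    exact ⟨g3, g1⟩
  · have hq : ((v, z) : E d × ℂ) ∈ ball q r2 := by
      rw [Metric.mem_ball, Prod.dist_eq, max_lt_iff]
      exact ⟨lt_of_lt_of_le (Metric.mem_ball.1 hv) (min_le_right _ _),
        lt_of_lt_of_le (Metric.mem_ball.1 hz) (min_le_right _ _)⟩
    exact ((hr2' _ hq).1 hvz).symm

end Pool.Agent.H44.NP
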