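import Pool.Agent.H44.NP.TDI

/-!
# Module WIT: the iterates and the multiplier as functions of the map and the point

PROOFS (compare H47/NN/LOC). `wi j (v, z) = f_v^j (z)` (with junk values if a denominator vanishes). `jointly analytic`: `(v, z) ↦ (pol v.1).eval z = ∑ v.1 i * z ^ i` is a polynomial in `(v, z)`; `wi_an` by induction (`AnalyticAt.comp`, `AnalyticAt.div`). `gp_open`: `wi i` is continuous at the points of `Gp i`; by induction on `p`:
`Gp (p + 1) = Gp p ∩ {q | denominator at wi p q ≠ 0}`, `isOpen_iff_mem_nhds`. `mu_an`: `Wr` is `derivative P * Q - P * derivative Q`; use `Finset.prod` of analytic functions. `wi_dz`: chain rule as `wl_der` in LOC: the function `w ↦ wi j (q.1, w)` has derivative `mu j q`, and it is `fderiv ℂ (wi j) q (0, 1)` by `HasFDerivAt.comp_hasDerivAt`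
along `w ↦ (q.1, w)` and uniqueness. `cyc_wi`, `wi_cyc`: as `wl_cyc` in LOC: `wi j (v, x 0) = x j`.
-/

set_option autoImplicit false

open Filter Topology Metric Set Polynomial

namespace Pool.Agent.H44.NP

open Pool.Agent.H44.Fatou Pool.Agent.H79.Eul Pool.Agent.H79.Par Pool.Agent.H47.NN

variable {d : ℕ}

/-- the iterates -/
noncomputable def wi : ℕ → E d × ℂ → ℂ
  | 0 => fun q => q.2
  | j + 1 => fun q => (pol q.1.1).eval (wi j q) / (pol q.1.2).eval (wi j q)

/-- no denominator vanishes -/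
def Gp (p : ℕ) : Set (E d × ℂ) := {q | ∀ i, i < p → (pol q.1.2).eval (wi i q) ≠ 0}

/-- the derivative of the iterate -/
noncomputable def mu (p : ℕ) (q : E d × ℂ) : ℂ :=
  ∏ i ∈ Finset.range p, (Wr (pol q.1.1) (pol q.1.2)).eval (wi i q) / ((pol q.1.2).eval (wi i q)) ^ 2

private theorem wit_eval (v : Fin (d + 1) → ℂ) (z : ℂ) :
    (pol v).eval z = ∑ i : Fin (d + 1), v i * z ^ (i : ℕ) := by
  unfold pol
  rw [eval_finset_sum]
  refine Finset.sum_congr rfl fun i _ => ?_
  rw [eval_mul, eval_C, eval_pow, eval_X]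

private theorem wit_der (v : Fin (d + 1) → ℂ) (z : ℂ) :
    (derivative (pol v)).eval z = ∑ i : Fin (d + 1), v i * ((i : ℕ) * z ^ ((i : ℕ) - 1)) := by
  unfold pol
  rw [derivative_sum, eval_finset_sum]
  refine Finset.sum_congr rfl fun i _ => ?_
  rw [derivative_C_mul, eval_mul, eval_C, derivative_X_pow, eval_mul, eval_pow, eval_X, eval_C]

private theorem wit_c1 (i : Fin (d + 1)) (q : E d × ℂ) :
    AnalyticAt ℂ (fun q : E d × ℂ => q.1.1 i) q :=
  (((ContinuousLinearMap.proj i : (Fin (d + 1) → ℂ) →L[ℂ] ℂ).comp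
    (ContinuousLinearMap.fst ℂ _ _)).comp (ContinuousLinearMap.fst ℂ (E d) ℂ)).analyticAt q

private theorem wit_c2 (i : Fin (d + 1)) (q : E d × ℂ) :
    AnalyticAt ℂ (fun q : E d × ℂ => q.1.2 i) q :=
  (((ContinuousLinearMap.proj i : (Fin (d + 1) → ℂ) →L[ℂ] ℂ).comp
    (ContinuousLinearMap.snd ℂ _ _)).comp (ContinuousLinearMap.fst ℂ (E d) ℂ)).analyticAt q

private theorem wit_e {c : E d × ℂ → Fin (d + 1) → ℂ} {f : E d × ℂ → ℂ} {q : E d × ℂ}
    (hc : ∀ i, AnalyticAt ℂ (fun q => c q i) q) (hf : AnalyticAt ℂ f q) :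
    AnalyticAt ℂ (fun q => (pol (c q)).eval (f q)) q := by
  simp only [wit_eval]
  exact Finset.analyticAt_fun_sum _ fun i _ => (hc i).mul (hf.pow _)

private theorem wit_d {c : E d × ℂ → Fin (d + 1) → ℂ} {f : E d × ℂ → ℂ} {q : E d × ℂ}
    (hc : ∀ i, AnalyticAt ℂ (fun q => c q i) q) (hf : AnalyticAt ℂ f q) :
    AnalyticAt ℂ (fun q => (derivative (pol (c q))).eval (f q)) q := by
  simp only [wit_der]
  exact Finset.analyticAt_fun_sum _ fun i _ => (hc i).mul (analyticAt_const.mul (hf.pow _))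

theorem wi_an (j : ℕ) {q : E d × ℂ} (hq : q ∈ Gp j) : AnalyticAt ℂ (wi j) q := by
  induction j with
  | zero => exact analyticAt_snd
  | succ j ih =>
    have h1 := ih (fun i hi => hq i (by omega))
    exact (wit_e (fun i => wit_c1 i q) h1).div (wit_e (fun i => wit_c2 i q) h1) (hq j (by omega))

theorem gp_open (p : ℕ) : IsOpen (Gp p : Set (E d × ℂ)) := by
  induction p with
  | zero =>
    have h1 : (Gp 0 : Set (E d × ℂ)) = univ := by
      ext q
      exact ⟨fun _ => mem_univ q, fun _ i hi => absurd hi (Nat.not_lt_zero i)⟩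
    rw [h1]
    exact isOpen_univ
  | succ p ih =>
    rw [isOpen_iff_mem_nhds]
    intro q hq
    have h1 : q ∈ (Gp p : Set (E d × ℂ)) := fun i hi => hq i (by omega)
    have h2 := wit_e (fun i => wit_c2 i q) (wi_an p h1)
    have h3 := h2.continuousAt.eventually_ne (hq p (Nat.lt_succ_self p))
    filter_upwards [h3, ih.mem_nhds h1] with w hw1 hw2 i hi
    rcases Nat.lt_succ_iff_lt_or_eq.1 hi with h4 | h4
    · exact hw2 i h4
    · rw [h4]
      exact hw1

theorem mu_an (p : ℕ) {q : E d × ℂ} (hq : q ∈ Gp p) : AnalyticAt ℂ (mu p) q := by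
  unfold mu
  refine Finset.analyticAt_fun_prod _ fun i hi => ?_
  have hi' := Finset.mem_range.1 hi
  have h1 : AnalyticAt ℂ (wi i) q := wi_an i (fun k hk => hq k (by omega))
  have h2 := wit_e (fun i => wit_c1 i q) h1
  have h3 := wit_e (fun i => wit_c2 i q) h1
  have h4 := wit_d (fun i => wit_c1 i q) h1
  have h5 := wit_d (fun i => wit_c2 i q) h1
  refine AnalyticAt.div ?_ (h3.pow 2) (pow_ne_zero 2 (hq i hi'))
  unfold Wr
  simp only [eval_sub, eval_mul]
  exact (h4.mul h3).sub (h2.mul h5)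

theorem wi_dz (j : ℕ) {q : E d × ℂ} (hq : q ∈ Gp j) :
    fderiv ℂ (wi j) q (0, 1) = mu j q ∧ HasDerivAt (fun w => wi j (q.1, w)) (mu j q) q.2 := by
  have key : HasDerivAt (fun w => wi j (q.1, w)) (mu j q) q.2 := by
    induction j with
    | zero =>
      unfold mu
      simp only [Finset.range_zero, Finset.prod_empty]
      exact hasDerivAt_id q.2
    | succ j ih =>
      have h1 := ih (fun i hi => hq i (by omega))
      have hb := hq j (by omega)
      have h2 : HasDerivAt (fun w => (pol q.1.1).eval w / (pol q.1.2).eval w)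
          ((Wr (pol q.1.1) (pol q.1.2)).eval (wi j q) / ((pol q.1.2).eval (wi j q)) ^ 2)
          (wi j (q.1, q.2)) := by
        have := ((pol q.1.1).hasDerivAt (wi j q)).div ((pol q.1.2).hasDerivAt (wi j q)) hb
        unfold Wr
        rw [eval_sub, eval_mul, eval_mul]
        exact this
      have h3 := HasDerivAt.comp q.2 h2 h1
      unfold mu
      rw [Finset.prod_range_succ, mul_comm]
      exact h3
  refine ⟨?_, key⟩
  have d1 : HasFDerivAt (wi j) (fderiv ℂ (wi j) q) q := (wi_an j hq).differentiableAt.hasFDerivAt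
  have d2 : HasDerivAt (fun w : ℂ => ((q.1, w) : E d × ℂ)) ((0, 1) : E d × ℂ) q.2 :=
    (hasDerivAt_const q.2 q.1).prodMk (hasDerivAt_id q.2)
  have d3 : HasDerivAt (fun w : ℂ => wi j (q.1, w)) ((fderiv ℂ (wi j) q) (0, 1)) q.2 :=
    HasFDerivAt.comp_hasDerivAt (f := fun w : ℂ => ((q.1, w) : E d × ℂ)) q.2 d1 d2
  exact d3.unique key

theorem cyc_wi {p : ℕ} {v : E d} {x : ℕ → ℂ} {m : ℂ} (h : Cyc (pol v.1) (pol v.2) p x m) :
    (v, x 0) ∈ Gp p ∧ wi p (v, x 0) = x 0 ∧ mu p (v, x 0) = m := by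
  have hw : ∀ j, j ≤ p → wi j (v, x 0) = x j := by
    intro j
    induction j with
    | zero => intro _; rfl
    | succ j ih =>
      intro hj
      have h1 := ih (by omega)
      have h2 := h.step j (by omega)
      show (pol v.1).eval (wi j (v, x 0)) / (pol v.2).eval (wi j (v, x 0)) = x (j + 1)
      rw [h1, h2]
  refine ⟨fun i hi => ?_, ?_, ?_⟩
  · show (pol v.2).eval (wi i (v, x 0)) ≠ 0
    rw [hw i hi.le]
    exact h.ne i hi
  · rw [hw p le_rfl, h.per]
  · rw [← h.mul]
    unfold mu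
    refine Finset.prod_congr rfl fun i hi => ?_
    show (Wr (pol v.1) (pol v.2)).eval (wi i (v, x 0)) / ((pol v.2).eval (wi i (v, x 0))) ^ 2 = _
    rw [hw i (Finset.mem_range.1 hi).le]

theorem wi_cyc {p : ℕ} {v : E d} {z : ℂ} (h : (v, z) ∈ Gp p) (hz : wi p (v, z) = z) :
    Cyc (pol v.1) (pol v.2) p (fun i => wi i (v, z)) (mu p (v, z)) := by
  exact ⟨fun i hi => h i hi, fun i _ => rfl, hz, rfl⟩

end Pool.Agent.H44.NP
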