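import Pool.Agent.H47.NN.Defs

/-!
# Module TDI: iterated directional derivatives

PROOFS. `td_an`: `AnalyticOnNhd.fderiv`, then evaluate at `e` (`ContinuousLinearMap.apply`, `AnalyticAt.comp`-type lemma). `td_line`: let `O = {s | v + s • e ∈ U}` (open); by induction on `j`: for every `s ∈ O`, `iteratedDeriv j (fun s => g (v + s • e)) s = (Td e)^[j] g (v + s • e)`
(`iteratedDeriv_succ`, the derivative at `s` only depends on the germ, `Function.iterate_succ_apply'`; chain rule). `td_dir`: suppose all `(Td (e i))^[j + 1] g v = 0`. For `w ∈ ball v0 r` near `v`, precisely: take `ρ > 0` with `ball v ρ ⊆ ball v0 r`; claim `g w = g v` for `w ∈ ball v ρ`. Fix such a `w` and `i` with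
`‖e i‖ < ρ`: the function `s ↦ g (v + s • e i)` is analytic on `ball 0 (ρ / ‖e i‖) ∋ 1` (if `e i = 0` trivial) and all its derivatives of order `≥ 1` vanish at 0, so it is constant there (one variable: `DifferentiableOn.taylor`-type results / `Complex.hasSum_taylorSeries_on_ball`, or the identity theorem
`AnalyticOnNhd.eqOn_of_preconnected_of_eventuallyEq` with `AnalyticAt.hasFPowerSeriesAt` given by `iteratedDeriv`): `g (v + e i) = g v`. By density and continuity of `g` on the ball `g w = g v`.
-/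

set_option autoImplicit false

open Filter Topology Metric Set

namespace Pool.Agent.H44.NP

open Pool.Agent.H79.Eul

variable {d : ℕ}

/-- the derivative in the direction `e` -/
noncomputable def Td (e : E d) (g : E d → ℂ) : E d → ℂ := fun v => fderiv ℂ g v e

theorem td_an {e : E d} {g : E d → ℂ} {U : Set (E d)} (h : AnalyticOnNhd ℂ g U) :
    AnalyticOnNhd ℂ (Td e g) U :=
  (ContinuousLinearMap.apply ℂ ℂ e).comp_analyticOnNhd h.fderiv

theorem td_it {e : E d} {g : E d → ℂ} {U : Set (E d)} (h : AnalyticOnNhd ℂ g U) (j : ℕ) :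
    AnalyticOnNhd ℂ ((Td e)^[j] g) U := by
  induction j with
  | zero => exact h
  | succ j ih =>
    rw [Function.iterate_succ_apply']
    exact td_an ih

theorem td_line {e : E d} {g : E d → ℂ} {U : Set (E d)} (hU : IsOpen U) (h : AnalyticOnNhd ℂ g U)
    (j : ℕ) {v : E d} (hv : v ∈ U) :
    iteratedDeriv j (fun s : ℂ => g (v + s • e)) 0 = (Td e)^[j] g v := by
  have hcont : Continuous fun s : ℂ => v + s • e := by fun_prop
  have key : ∀ j : ℕ, ∀ s : ℂ, v + s • e ∈ U →
      iteratedDeriv j (fun s : ℂ => g (v + s • e)) s = (Td e)^[j] g (v + s • e) := by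
    intro j
    induction j with
    | zero =>
      intro s _
      rw [iteratedDeriv_zero]
      rfl
    | succ j ih =>
      intro s hs
      have h1 : ∀ᶠ t in 𝓝 s, v + t • e ∈ U := hcont.continuousAt.eventually (hU.mem_nhds hs)
      have h2 : iteratedDeriv j (fun s : ℂ => g (v + s • e)) =ᶠ[𝓝 s]
          fun t => (Td e)^[j] g (v + t • e) := h1.mono fun t ht => ih t ht
      rw [iteratedDeriv_succ, h2.deriv_eq, Function.iterate_succ_apply']
      have h3 : HasFDerivAt ((Td e)^[j] g) (fderiv ℂ ((Td e)^[j] g) (v + s • e)) (v + s • e) :=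
        (td_it h j _ hs).differentiableAt.hasFDerivAt
      have h4 : HasDerivAt (fun t : ℂ => v + t • e) e s := by
        have h5 := ((hasDerivAt_id s).smul_const e).const_add v
        simpa using h5
      exact (h3.comp_hasDerivAt s h4).deriv
  have h0 := key j 0 (by rw [zero_smul, add_zero]; exact hv)
  rw [zero_smul, add_zero] at h0
  exact h0

/-- a function which is not locally constant has a nonzero directional derivative of some order, in one of countably many directions -/
theorem td_dir {g : E d → ℂ} {v0 : E d} {r : ℝ} (h : AnalyticOnNhd ℂ g (ball v0 r)) {v : E d}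
    (hv : v ∈ ball v0 r) (hn : ¬ ∀ᶠ w in 𝓝 v, g w = g v) :
    ∃ i j : ℕ, (Td (TopologicalSpace.denseSeq (E d) i))^[j + 1] g v ≠ 0 := by
  by_contra hcon
  push Not at hcon
  apply hn
  obtain ⟨ρ, hρ, hball⟩ := Metric.isOpen_ball.mem_nhds hv |> Metric.mem_nhds_iff.1
  have hU : AnalyticOnNhd ℂ g (ball v ρ) := fun w hw => h w (hball hw)
  -- along the lines
  have hline : ∀ i, ‖TopologicalSpace.denseSeq (E d) i‖ < ρ →
      g (v + TopologicalSpace.denseSeq (E d) i) = g v := by
    intro i hi
    obtain ⟨e, he⟩ : ∃ e, e = TopologicalSpace.denseSeq (E d) i := ⟨_, rfl⟩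
    have hc : ∀ j, (Td e)^[j + 1] g v = 0 := by
      rw [he]
      exact hcon i
    rw [← he] at hi ⊢
    have hen := norm_nonneg e
    obtain ⟨R, hR1, hR2⟩ : ∃ R : ℝ, 1 < R ∧ R * ‖e‖ < ρ := by
      refine ⟨1 + (ρ - ‖e‖) / (2 * (‖e‖ + 1)), ?_, ?_⟩
      · have : 0 < (ρ - ‖e‖) / (2 * (‖e‖ + 1)) := div_pos (by linarith) (by positivity)
        linarith
      · have h1 : (ρ - ‖e‖) / (2 * (‖e‖ + 1)) * ‖e‖ ≤ (ρ - ‖e‖) / 2 := by
          rw [div_mul_eq_mul_div, div_le_div_iff₀ (by positivity) (by norm_num)]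
          nlinarith
        rw [add_mul, one_mul]
        linarith
    have hmaps : ∀ s ∈ ball (0 : ℂ) R, v + s • e ∈ ball v ρ := by
      intro s hs
      rw [mem_ball_zero_iff] at hs
      rw [mem_ball_iff_norm, add_sub_cancel_left, norm_smul]
      calc ‖s‖ * ‖e‖ ≤ R * ‖e‖ := mul_le_mul_of_nonneg_right hs.le hen
        _ < ρ := hR2
    have hdiff : DifferentiableOn ℂ (fun s : ℂ => g (v + s • e)) (ball 0 R) := by
      intro s hs
      have h1 : DifferentiableAt ℂ g (v + s • e) := (hU _ (hmaps s hs)).differentiableAt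
      have h2 : DifferentiableAt ℂ (fun t : ℂ => v + t • e) s := by fun_prop
      exact (h1.comp s h2).differentiableWithinAt
    have h1 : (1 : ℂ) ∈ ball (0 : ℂ) R := by
      rw [mem_ball_zero_iff, norm_one]
      exact hR1
    have h2 := Complex.hasSum_taylorSeries_on_ball hdiff h1
    have h3 : HasSum (fun n : ℕ => ((n.factorial : ℂ)⁻¹ • ((1 : ℂ) - 0) ^ n •
        iteratedDeriv n (fun s : ℂ => g (v + s • e)) 0)) (g v) := by
      have h4 := hasSum_single (f := fun n : ℕ => ((n.factorial : ℂ)⁻¹ • ((1 : ℂ) - 0) ^ n •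
        iteratedDeriv n (fun s : ℂ => g (v + s • e)) 0)) 0 (fun n hn0 => by
          obtain ⟨j, rfl⟩ := Nat.exists_eq_succ_of_ne_zero hn0
          rw [td_line isOpen_ball hU (j + 1) (mem_ball_self hρ), hc j, smul_zero, smul_zero])
      have h5 : ((Nat.factorial 0 : ℂ)⁻¹ • ((1 : ℂ) - 0) ^ 0 •
        iteratedDeriv 0 (fun s : ℂ => g (v + s • e)) 0) = g v := by
        rw [iteratedDeriv_zero]
        simp
      rw [← h5]
      exact h4
    have h6 := h2.unique h3
    simpa using h6
  -- density
  filter_upwards [ball_mem_nhds v hρ] with w hw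
  by_contra hne
  have h1 : ∀ᶠ w' in 𝓝 w, g w' ≠ g v ∧ w' ∈ ball v ρ :=
    ((hU w hw).continuousAt.eventually_ne hne).and (isOpen_ball.mem_nhds hw)
  have h2 : Tendsto (fun u : E d => v + u) (𝓝 (w - v)) (𝓝 w) := by
    have h3 : Continuous fun u : E d => v + u := by fun_prop
    have h4 := h3.tendsto (w - v)
    rwa [add_sub_cancel] at h4
  have h3 := h2.eventually h1
  obtain ⟨O, hO1, hO2, hO3⟩ := _root_.mem_nhds_iff.1 h3
  obtain ⟨i, hi⟩ := (TopologicalSpace.denseRange_denseSeq (E d)).exists_mem_open hO2 ⟨_, hO3⟩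
  obtain ⟨h4, h5⟩ := hO1 hi
  apply h4
  apply hline
  rw [mem_ball_iff_norm, add_sub_cancel_left] at h5
  exact h5

end Pool.Agent.H44.NP
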