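import Pool.Agent.H44.NP.CCI
import Pool.Agent.H44.NP.TDI

/-!
# Module ANC: the points of the level set of the modulus of an analytic function, where the function is not locally constant

PROOF. Let `v` be in the set, `i, j` as in `td_dir` with `j` minimal for this `i` (`Nat.find`). If `j = 0`: `fderiv ℂ Λ v (e i) ≠ 0`, so `v` is in `S0 = {v ∈ ball v0 r | ‖Λ v‖ = 1 ∧ fderiv ℂ Λ v ≠ 0}`: `circ_cr`. If `j = k + 1`: `h = (Td (e i))^[k + 1] Λ` vanishes at `v` and `fderiv ℂ h v (e i) = (Td (e i))^[k + 2] Λ v ≠ 0`: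
`v` is in `S i k = {v ∈ ball v0 r | (Td (e i))^[k + 1] Λ v = 0 ∧ fderiv ℂ ((Td (e i))^[k + 1] Λ) v ≠ 0}`: `zero_cr`. Union over `i, k`. `an_zero`: apply `an_circ` to `1 + g`.
-/

set_option autoImplicit false

open Filter Topology Metric Set

namespace Pool.Agent.H44.NP

open Pool.Agent.H79.Eul

variable {d : ℕ}

theorem an_circ {Λ : E d → ℂ} {v0 : E d} {r : ℝ} (h : AnalyticOnNhd ℂ Λ (ball v0 r)) :
    CR (4 * d + 3) {v | v ∈ ball v0 r ∧ ‖Λ v‖ = 1 ∧ ¬ ∀ᶠ w in 𝓝 v, Λ w = Λ v} := by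
  classical
  have h0 : CR (4 * d + 3) {v | v ∈ ball v0 r ∧ ‖Λ v‖ = 1 ∧ fderiv ℂ Λ v ≠ 0} :=
    circ_cr (Λ := Λ) fun v hv => ⟨hv.2.1, (h v hv.1).differentiableAt, hv.2.2⟩
  have h1 : ∀ p : ℕ × ℕ, CR (4 * d + 3) {v | v ∈ ball v0 r ∧
      (Td (TopologicalSpace.denseSeq (E d) p.1))^[p.2 + 1] Λ v = 0 ∧
      fderiv ℂ ((Td (TopologicalSpace.denseSeq (E d) p.1))^[p.2 + 1] Λ) v ≠ 0} := fun p =>
    zero_cr (g := (Td (TopologicalSpace.denseSeq (E d) p.1))^[p.2 + 1] Λ) fun v hv =>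
      ⟨hv.2.1, (td_it h (p.2 + 1) v hv.1).differentiableAt, hv.2.2⟩
  refine cr_mono (cr_union h0 (cr_iUnion h1)) ?_
  rintro v ⟨hv, hv1, hn⟩
  obtain ⟨i, hi⟩ := td_dir h hv hn
  have hfind := Nat.find_spec hi
  have hmin : ∀ m, m < Nat.find hi →
      (Td (TopologicalSpace.denseSeq (E d) i))^[m + 1] Λ v = 0 := by
    intro m hm
    have := Nat.find_min hi hm
    exact not_not.1 this
  generalize Nat.find hi = j at hfind hmin
  rcases j with _ | k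
  · left
    refine ⟨hv, hv1, fun hz => hfind ?_⟩
    change fderiv ℂ Λ v (TopologicalSpace.denseSeq (E d) i) = 0
    rw [hz]
    rfl
  · right
    rw [mem_iUnion]
    refine ⟨(i, k), hv, hmin k (Nat.lt_succ_self k), fun hz => hfind ?_⟩
    rw [Function.iterate_succ_apply']
    change fderiv ℂ ((Td (TopologicalSpace.denseSeq (E d) i))^[k + 1] Λ) v
      (TopologicalSpace.denseSeq (E d) i) = 0
    rw [hz]
    rfl

theorem an_zero {g : E d → ℂ} {v0 : E d} {r : ℝ} (h : AnalyticOnNhd ℂ g (ball v0 r)) :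
    CR (4 * d + 3) {v | v ∈ ball v0 r ∧ g v = 0 ∧ ¬ ∀ᶠ w in 𝓝 v, g w = 0} := by
  have h1 : AnalyticOnNhd ℂ (fun v => 1 + g v) (ball v0 r) := fun v hv =>
    analyticAt_const.add (h v hv)
  refine cr_mono (an_circ h1) ?_
  rintro v ⟨hv, hv0, hn⟩
  refine ⟨hv, by simp [hv0], fun hc => hn ?_⟩
  filter_upwards [hc] with w hw
  rw [hv0] at hw
  exact add_left_cancel hw

end Pool.Agent.H44.NP
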