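import Pool.Agent.H44.NP.NPD

/-!
# Module LPC: Hausdorff dimension; the dimension of the space of pairs

PROOFS. `cr_dim`: `dimH_mono`, `dimH_iUnion`, `LipschitzWith.dimH_range_le`, `dimH_univ_pi_fin`. `fin_E`: `Module.finrank_prod`, `Module.finrank_pi_fintype` (or `finrank_fintype_fun_eq_card` over `ℂ` and `finrank_real_of_complex`), `Complex.finrank_real_complex`.
-/

set_option autoImplicit false

open Filter Topology Metric Set Module
open scoped NNReal

namespace Pool.Agent.H44.NP

theorem cr_dim {n : ℕ} {V : Type*} [EMetricSpace V] {S : Set V} (h : CR n S) : dimH S ≤ n := by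
  obtain ⟨g, hg, hS⟩ := h
  refine (dimH_mono hS).trans ?_
  rw [dimH_iUnion]
  refine iSup_le fun k => ?_
  obtain ⟨K, hK⟩ := hg k
  refine hK.dimH_range_le.trans ?_
  rw [Real.dimH_univ_pi_fin]

theorem fin_E (d : ℕ) :
    finrank ℝ ((Fin (d + 1) → ℂ) × (Fin (d + 1) → ℂ)) = (4 * d + 3) + 1 := by
  rw [Module.finrank_prod, Module.finrank_pi_fintype]
  simp only [Complex.finrank_real_complex, Finset.sum_const, Finset.card_univ, Fintype.card_fin,
    smul_eq_mul]
  ring

end Pool.Agent.H44.NP
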