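import Pool.Agent.H44.NP.LPB
import Pool.Agent.H44.NP.LPC
import Pool.Agent.H47.NN.Defs

/-!
# Module CCI: level sets of the modulus of a holomorphic function are tangent to a real hyperplane

PROOF. `tan_circ`: `ℓ u = (star (Λ v) * L u).re`, a continuous real linear functional (`Complex.reCLM`, `L.restrictScalars ℝ`); it is not 0: if `L e ≠ 0` take `u = c • e` with `c = Λ v * star (L e)`: `star (Λ v) * c * L e = ‖Λ v‖ ^ 2 * ‖L e‖ ^ 2 > 0`. For `‖Λ w‖ = 1 = ‖Λ v‖`, `D = Λ w - Λ v`: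
`1 = ‖Λ v + D‖ ^ 2 = 1 + 2 * (star (Λ v) * D).re + ‖D‖ ^ 2`, so `|(star (Λ v) * D).re| = ‖D‖ ^ 2 / 2`. `D = L (w - v) + o(w - v)` (`HasFDerivAt.isLittleO`), `‖D‖ ≤ (‖L‖ + 1) * ‖w - v‖` near `v`. So `|ℓ (w - v)| ≤ o(‖w - v‖) + C * ‖w - v‖ ^ 2`.
`circ_cr`: `tang_cr` with `fin_E`.
-/

set_option autoImplicit false

open Filter Topology Metric Set

namespace Pool.Agent.H44.NP

open Pool.Agent.H79.Eul

variable {d : ℕ}

private theorem cci_alg {a D : ℂ} (ha : ‖a‖ = 1) (h : ‖a + D‖ = 1) :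
    ((starRingEnd ℂ) a * D).re = -(‖D‖ ^ 2) / 2 := by
  have h1 : a.re * a.re + a.im * a.im = 1 := by
    have h2 := Complex.sq_norm a
    rw [ha, Complex.normSq_apply] at h2
    linarith
  have h3 : (a.re + D.re) * (a.re + D.re) + (a.im + D.im) * (a.im + D.im) = 1 := by
    have h2 := Complex.sq_norm (a + D)
    rw [h, Complex.normSq_apply, Complex.add_re, Complex.add_im] at h2
    linarith
  rw [Complex.sq_norm, Complex.normSq_apply, Complex.mul_re, Complex.conj_re, Complex.conj_im]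
  nlinarith

theorem tan_circ {Λ : E d → ℂ} {v : E d} {L : E d →L[ℂ] ℂ} (h : HasFDerivAt Λ L v) (hL : L ≠ 0)
    (hv : ‖Λ v‖ = 1) :
    ∃ ℓ : E d →L[ℝ] ℝ, ℓ ≠ 0 ∧ ∀ ε : ℝ, 0 < ε → ∃ r : ℝ, 0 < r ∧
      ∀ w, ‖w - v‖ < r → ‖Λ w‖ = 1 → |ℓ (w - v)| ≤ ε * ‖w - v‖ := by
  obtain ⟨a, ha⟩ : ∃ a : ℂ, a = (starRingEnd ℂ) (Λ v) := ⟨_, rfl⟩
  obtain ⟨ℓ, hℓ⟩ : ∃ ℓ : E d →L[ℝ] ℝ, ∀ u, ℓ u = (a * L u).re :=
    ⟨Complex.reCLM.comp ((a • L).restrictScalars ℝ), fun u => rfl⟩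
  have hna : ‖a‖ = 1 := by
    rw [ha, Complex.norm_conj, hv]
  refine ⟨ℓ, ?_, ?_⟩
  · intro h0
    obtain ⟨e, he⟩ : ∃ e, L e ≠ 0 := by
      by_contra hcon
      push Not at hcon
      exact hL (ContinuousLinearMap.ext hcon)
    have h1 := hℓ ((Λ v * (starRingEnd ℂ) (L e)) • e)
    rw [h0, zero_apply, map_smul, smul_eq_mul, ha] at h1
    have h2 : (starRingEnd ℂ) (Λ v) * (Λ v * (starRingEnd ℂ) (L e) * L e) =
        ((‖Λ v‖ ^ 2 * ‖L e‖ ^ 2 : ℝ) : ℂ) := by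
      have h3 : (starRingEnd ℂ) (Λ v) * Λ v = ((‖Λ v‖ ^ 2 : ℝ) : ℂ) := by
        rw [mul_comm, Complex.mul_conj, Complex.normSq_eq_norm_sq]
      have h4 : (starRingEnd ℂ) (L e) * L e = ((‖L e‖ ^ 2 : ℝ) : ℂ) := by
        rw [mul_comm, Complex.mul_conj, Complex.normSq_eq_norm_sq]
      rw [mul_assoc, ← mul_assoc, h3, h4]
      push_cast
      ring
    rw [h2, Complex.ofReal_re, hv] at h1
    have h5 : 0 < ‖L e‖ := norm_pos_iff.2 he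
    have h6 : 0 < ‖L e‖ ^ 2 := by positivity
    linarith
  · intro ε hε
    obtain ⟨ε₁, hε₁⟩ : ∃ ε₁ : ℝ, ε₁ = min (ε / 2) 1 := ⟨_, rfl⟩
    have hε₁0 : 0 < ε₁ := by
      rw [hε₁]
      exact lt_min (by positivity) one_pos
    have hε₁1 : ε₁ ≤ 1 := by
      rw [hε₁]
      exact min_le_right _ _
    have hε₁2 : ε₁ ≤ ε / 2 := by
      rw [hε₁]
      exact min_le_left _ _
    have h1 := h.isLittleO.def hε₁0
    obtain ⟨r₁, hr₁, h2⟩ := Metric.eventually_nhds_iff.1 h1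
    obtain ⟨C, hC⟩ : ∃ C : ℝ, C = (‖L‖ + 1) ^ 2 := ⟨_, rfl⟩
    have hC0 : 0 < C := by
      rw [hC]
      have := norm_nonneg L
      positivity
    refine ⟨min r₁ (ε / C), lt_min hr₁ (by positivity), ?_⟩
    intro w hw hΛ
    have hw1 : dist w v < r₁ := by
      rw [dist_eq_norm]
      exact lt_of_lt_of_le hw (min_le_left _ _)
    have hw2 : ‖w - v‖ ≤ ε / C := (lt_of_lt_of_le hw (min_le_right _ _)).le
    have h3 := h2 hw1
    obtain ⟨D, hD⟩ : ∃ D : ℂ, D = Λ w - Λ v := ⟨_, rfl⟩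
    obtain ⟨R, hR⟩ : ∃ R : ℂ, R = D - L (w - v) := ⟨_, rfl⟩
    have h4 : ‖R‖ ≤ ε₁ * ‖w - v‖ := by
      rw [hR, hD]
      exact h3
    have h5 : L (w - v) = D - R := by rw [hR]; ring
    have h6 : ‖D‖ ≤ (‖L‖ + 1) * ‖w - v‖ := by
      have h7 : D = L (w - v) + R := by rw [hR]; ring
      have h8 := norm_add_le (L (w - v)) R
      have h9 := L.le_opNorm (w - v)
      have h10 : ε₁ * ‖w - v‖ ≤ 1 * ‖w - v‖ := mul_le_mul_of_nonneg_right hε₁1 (norm_nonneg _)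
      rw [← h7] at h8
      linarith
    have h7 : ((starRingEnd ℂ) (Λ v) * D).re = -(‖D‖ ^ 2) / 2 := by
      refine cci_alg hv ?_
      rw [hD, add_sub_cancel]
      exact hΛ
    have h8 : ℓ (w - v) = -(‖D‖ ^ 2) / 2 - (a * R).re := by
      rw [hℓ, h5, mul_sub, Complex.sub_re, ha, h7]
    have h9 : |(a * R).re| ≤ ‖R‖ := by
      have h10 := Complex.abs_re_le_norm (a * R)
      rw [norm_mul, hna, one_mul] at h10
      exact h10
    have h10 : |ℓ (w - v)| ≤ ‖D‖ ^ 2 / 2 + ‖R‖ := by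
      rw [h8]
      have h11 := abs_le.1 h9
      have h12 : 0 ≤ ‖D‖ ^ 2 / 2 := by positivity
      rw [abs_le]
      constructor
      · linarith
      · linarith
    have h11 : ‖D‖ ^ 2 ≤ ε * ‖w - v‖ := by
      have h12 : ‖D‖ ^ 2 ≤ C * ‖w - v‖ ^ 2 := by
        rw [hC, ← mul_pow]
        exact pow_le_pow_left₀ (norm_nonneg _) h6 2
      have h13 : C * ‖w - v‖ ≤ ε := by
        rw [le_div_iff₀ hC0] at hw2
        linarith
      have h14 : C * ‖w - v‖ ^ 2 = (C * ‖w - v‖) * ‖w - v‖ := by ring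
      rw [h14] at h12
      exact h12.trans (mul_le_mul_of_nonneg_right h13 (norm_nonneg _))
    have h12 : ε₁ * ‖w - v‖ ≤ ε / 2 * ‖w - v‖ := mul_le_mul_of_nonneg_right hε₁2 (norm_nonneg _)
    linarith

theorem circ_cr {Λ : E d → ℂ} {S : Set (E d)}
    (h : ∀ v ∈ S, ‖Λ v‖ = 1 ∧ DifferentiableAt ℂ Λ v ∧ fderiv ℂ Λ v ≠ 0) : CR (4 * d + 3) S := by
  refine tang_cr (fin_E d) fun v hv => ?_
  obtain ⟨h1, h2, h3⟩ := h v hv
  obtain ⟨ℓ, h4, h5⟩ := tan_circ h2.hasFDerivAt h3 h1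
  refine ⟨ℓ, h4, fun ε hε => ?_⟩
  obtain ⟨r, hr, h6⟩ := h5 ε hε
  exact ⟨r, hr, fun w hw hwr => (le_abs_self _).trans (h6 w hwr (h w hw).1)⟩

theorem zero_cr {g : E d → ℂ} {S : Set (E d)}
    (h : ∀ v ∈ S, g v = 0 ∧ DifferentiableAt ℂ g v ∧ fderiv ℂ g v ≠ 0) : CR (4 * d + 3) S := by
  refine circ_cr (Λ := fun v => 1 + g v) fun v hv => ?_
  obtain ⟨h1, h2, h3⟩ := h v hv
  refine ⟨?_, h2.const_add 1, ?_⟩
  · simp [h1]
  · rw [fderiv_const_add]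
    exact h3

end Pool.Agent.H44.NP
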