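import Pool.Agent.H44.NP.CCI
import Pool.Agent.H56.HR.MAI

/-!
# Module HCO: the pieces of the set of maps with a Herman ring

PROOFS. `hol_cone` (compare H56/HR/HOL, `theorem hol`): choose `s` between `r` and `R`. `ℓ u = (LA v0 p ψ s (xi v0 u)).re`: real linear and continuous (`la_xi_add`, `la_xi_smul`, as the map `m` in `hol_pos`, then `restrictScalars` and `Complex.reCLM`), not 0 by `trv` (if `m u0 ≠ 0` then `ℓ (star (m u0) • u0) > 0`).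
`hol_cpt`: `K ⊆ ψ '' CAn s1 s2`. Given `ε` take `δ` of `drf` and `η0` of `exp1` (as in the proof of `hol`: the orbit gives `w n ∈ CAn s1 s2` with `it (v0 + u) p (ψ (w n)) = ψ (w (n + 1))`), `δ' = min δ η0`. So `|ℓ u| ≤ ε ‖u‖`.
`ss_cr`: `v0 ∈ SS d p t k`. `chr` (H56/HR/CHR): chart `s, φ, ψ1`, `K = coe ⁻¹' (φ '' R0 t k)` as in `ss_null` (H56/HR/MAI), `hol_cone` at `Lin s v0` gives `ℓ1`. `Lin s` is linear in `v` and invertible (H44/RR: `Lin` is a linear map or a continuous linear equivalence, look for `lin_add`, `lin_smul`, `lin_inj`, the inverse used in `chart_holes`):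
`ℓ = ℓ1 ∘ Lin s`, not 0. For `v ∈ SS d p t k` near `v0`, `u = Lin s v - Lin s v0 = Lin s (v - v0)` is small (`‖u‖ ≤ C ‖v - v0‖`, `C ≥ 1`), the orbit in `R0 t k` gives an orbit of `Rf (Lin s v) = Rf (Lin s v0 + u)` in `coe '' K` (`iter_conj`), so `|ℓ (v - v0)| = |ℓ1 u| ≤ (ε / C) ‖u‖ ≤ ε ‖v - v0‖`. `tang_cr` with `fin_E`.
`h_cr`: `ctb` as in `h_main`: union over `p, t, k`.
-/

set_option autoImplicit false

open Filter Topology Polynomial Metric Set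

namespace Pool.Agent.H44.NP

open Pool.Agent.H44.Fatou Pool.Agent.H32.BT Pool.Agent.H79.Eul Pool.Agent.H79.Par
open Pool.Agent.H35.EX Pool.Agent.H44.RR Pool.Agent.H56.HR

variable {d : ℕ}

theorem hol_cone {v0 : E d} {p : ℕ} {l : ℂ} {ψ : ℂ → ℂ} {r R : ℝ}
    (h : Pool.Agent.H56.HR.Ring v0 p l ψ r R) {K : Set ℂ} (hK : IsCompact K)
    (hKs : K ⊆ ψ '' Ann r R) :
    ∃ ℓ : E d →L[ℝ] ℝ, ℓ ≠ 0 ∧ ∀ ε : ℝ, 0 < ε → ∃ δ : ℝ, 0 < δ ∧ ∀ u : E d, ‖u‖ < δ →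
      (∃ z : OnePoint ℂ, ∀ n : ℕ, (Rf (v0 + u))^[p * n] z ∈ ((↑) : ℂ → OnePoint ℂ) '' K) →
      |ℓ u| ≤ ε * ‖u‖ := by
  obtain ⟨s1, s2, h1, -, h2, hK12⟩ := hol_cpt h hK hKs
  obtain ⟨s, hs, hs'⟩ := exists_between h.hrR
  let m : E d →ₗ[ℂ] ℂ :=
    { toFun := fun u => LA v0 p ψ s (xi v0 u)
      map_add' := fun u v => la_xi_add h hs hs' u v
      map_smul' := fun c u => by
        rw [la_xi_smul h hs hs', RingHom.id_apply, smul_eq_mul] }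
  have hm : ∀ u, m u = LA v0 p ψ s (xi v0 u) := fun u => rfl
  have hmc : Continuous m := LinearMap.continuous_of_finiteDimensional m
  obtain ⟨u0, hu0⟩ := trv h hs hs'
  rw [← hm] at hu0
  let mc : E d →L[ℂ] ℂ := ⟨m, hmc⟩
  let ℓ : E d →L[ℝ] ℝ := Complex.reCLM.comp (mc.restrictScalars ℝ)
  have hℓ : ∀ u, ℓ u = (LA v0 p ψ s (xi v0 u)).re := fun u => rfl
  refine ⟨ℓ, ?_, ?_⟩
  · intro hz
    have h3 : ℓ (((starRingEnd ℂ) (m u0)) • u0) = 0 := by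
      rw [hz]
      rfl
    rw [hℓ, ← hm, map_smul, smul_eq_mul, mul_comm, Complex.mul_conj, Complex.ofReal_re] at h3
    exact hu0 (Complex.normSq_eq_zero.1 h3)
  · intro ε hε
    obtain ⟨δ, hδ, hdrf⟩ := drf h hs hs' h1 h2 hε
    have hsub : CAn s1 s2 ⊆ Ann r R := can_sub h1 h2
    have hKc : IsCompact (ψ '' CAn s1 s2) := (isCompact_CAn s1 s2).image_of_continuousOn
      fun w hw => (psi_hd h 0 (hsub hw)).continuousAt.continuousWithinAt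
    obtain ⟨C0, η0, hC0, hη0, hexp⟩ := exp1 (v0 := v0) hKc p (by
      rintro j - _ ⟨w, hw, rfl⟩
      exact h.fin j w (hsub hw))
    refine ⟨min δ η0, lt_min hδ hη0, ?_⟩
    rintro u hu ⟨z, hz⟩
    have hu1 : ‖u‖ < δ := hu.trans_le (min_le_left _ _)
    have hu2 : ‖u‖ ≤ η0 := (hu.trans_le (min_le_right _ _)).le
    have hch : ∀ n : ℕ, ∃ x ∈ CAn s1 s2, (Rf (v0 + u))^[p * n] z = ((ψ x : ℂ) : OnePoint ℂ) := by
      intro n
      obtain ⟨y, hy, hye⟩ := hz n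
      obtain ⟨x, hx, rfl⟩ := hK12 hy
      exact ⟨x, hx, hye.symm⟩
    choose x hx hxe using hch
    have hstep : ∀ n, it (v0 + u) p (ψ (x n)) = ψ (x (n + 1)) := by
      intro n
      obtain ⟨hpole, -, -⟩ := hexp u hu2 (ψ (x n)) ⟨x n, hx n, rfl⟩
      have h3 := hxe (n + 1)
      have e : p * (n + 1) = p + p * n := by ring
      rw [e, Function.iterate_add_apply, hxe n, rat_it hpole] at h3
      exact OnePoint.coe_injective h3
    rw [hℓ]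
    exact hdrf u hu1 ⟨x, hx, hstep⟩

theorem ss_tan (hd : 2 ≤ d) {p : ℕ} {t : Finset ℕ} {k : ℕ} {v0 : E d} (h : v0 ∈ SS d p t k) :
    ∃ ℓ : E d →L[ℝ] ℝ, ℓ ≠ 0 ∧ ∀ ε : ℝ, 0 < ε → ∃ δ : ℝ, 0 < δ ∧
      ∀ v ∈ SS d p t k, ‖v - v0‖ < δ → |ℓ (v - v0)| ≤ ε * ‖v - v0‖ := by
  obtain ⟨hcop, hdeg, A, l, ψ, r, R, hR, hRA, -⟩ := h
  obtain ⟨s, φ, ψ1, hφs, hφ, hconj, hring, hψ⟩ := chr hd hcop hdeg hR
  obtain ⟨K, hK⟩ : ∃ K : Set ℂ, K = ((↑) : ℂ → OnePoint ℂ) ⁻¹' (φ '' R0 t k) := ⟨_, rfl⟩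
  have hsub : φ '' R0 t k ⊆ ((↑) : ℂ → OnePoint ℂ) '' (ψ1 '' Ann r R) := by
    rintro _ ⟨x, hx, rfl⟩
    have hxA := hRA hx
    rw [← hR.bij.image_eq] at hxA
    obtain ⟨w, hw, rfl⟩ := hxA
    exact ⟨ψ1 w, ⟨w, hw, rfl⟩, (hψ w hw).symm⟩
  have himg : ((↑) : ℂ → OnePoint ℂ) '' K = φ '' R0 t k := by
    rw [hK, Set.image_preimage_eq_inter_range, Set.inter_eq_left]
    intro x hx
    obtain ⟨y, -, hy⟩ := hsub hx
    exact ⟨y, hy⟩
  have hKc : IsCompact K := by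
    rw [OnePoint.isOpenEmbedding_coe.isEmbedding.isCompact_iff, himg]
    exact ((r0_closed t k).isCompact).image φ.continuous
  have hKs : K ⊆ ψ1 '' Ann r R := by
    intro x hx
    rw [hK] at hx
    obtain ⟨y, hy, hxy⟩ := hsub hx
    rw [← OnePoint.coe_injective hxy]
    exact hy
  obtain ⟨ℓ1, hℓ1, hcone⟩ := hol_cone hring hKc hKs
  let g : E d →ₗ[ℂ] E d :=
    { toFun := Lin s
      map_add' := lin_add s
      map_smul' := fun c v => by rw [lin_smul, RingHom.id_apply] }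
  let f : E d →ₗ[ℝ] E d := g.restrictScalars ℝ
  have hf : ∀ v, f v = Lin s v := fun v => rfl
  have hinj : Function.Injective f := lin_inj s
  let e : E d ≃ₗ[ℝ] E d := LinearEquiv.ofInjectiveEndo f hinj
  have he : ∀ v, e v = Lin s v := fun v => rfl
  let F : E d →L[ℝ] E d := LinearMap.toContinuousLinearMap f
  have hF : ∀ v, F v = Lin s v := fun v => rfl
  refine ⟨ℓ1.comp F, ?_, ?_⟩
  · intro hz
    apply hℓ1
    refine ContinuousLinearMap.ext fun u => ?_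
    have h3 : (ℓ1.comp F) (e.symm u) = 0 := by
      rw [hz]
      rfl
    rw [ContinuousLinearMap.comp_apply, hF, ← he, LinearEquiv.apply_symm_apply] at h3
    rw [h3]
    rfl
  · intro ε hε
    obtain ⟨C, hC⟩ : ∃ C : ℝ, C = ‖F‖ + 1 := ⟨_, rfl⟩
    have hC0 : 0 < C := by
      rw [hC]
      positivity
    obtain ⟨δ, hδ, h3⟩ := hcone (ε / C) (by positivity)
    refine ⟨δ / C, by positivity, ?_⟩
    rintro v ⟨hvc, hvd, -, -, -, -, -, -, -, z, hz⟩ hv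
    have hle : ‖F (v - v0)‖ ≤ C * ‖v - v0‖ := by
      refine (F.le_opNorm _).trans ?_
      have : ‖F‖ ≤ C := by
        rw [hC]
        linarith
      gcongr
    have h4 : ‖F (v - v0)‖ < δ := by
      refine hle.trans_lt ?_
      rw [lt_div_iff₀ hC0] at hv
      linarith
    have h5 : Lin s v0 + F (v - v0) = Lin s v := by
      rw [map_sub, hF, hF]
      abel
    have h6 := h3 (F (v - v0)) h4 ⟨φ z, fun n => by
      rw [h5, iter_conj φ (hconj v hvc hvd), himg]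
      exact ⟨_, hz n, rfl⟩⟩
    rw [ContinuousLinearMap.comp_apply]
    refine h6.trans ?_
    calc ε / C * ‖F (v - v0)‖ ≤ ε / C * (C * ‖v - v0‖) := by gcongr
      _ = ε * ‖v - v0‖ := by field_simp

theorem ss_cr (hd : 2 ≤ d) (p : ℕ) (t : Finset ℕ) (k : ℕ) : CR (4 * d + 3) (SS d p t k) := by
  refine tang_cr (fin_E d) fun v hv => ?_
  obtain ⟨ℓ, h1, h2⟩ := ss_tan hd hv
  refine ⟨ℓ, h1, fun ε hε => ?_⟩
  obtain ⟨δ, hδ, h3⟩ := h2 ε hε
  exact ⟨δ, hδ, fun w hw hwd => (le_abs_self _).trans (h3 w hw hwd)⟩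

theorem h_cr (hd : 2 ≤ d) :
    CR (4 * d + 3) {v : E d | IsCoprime (pol v.1) (pol v.2) ∧
      max (pol v.1).natDegree (pol v.2).natDegree = d ∧
      ∃ (A : Set (OnePoint ℂ)) (p : ℕ) (l : ℂ) (ψ : ℂ → OnePoint ℂ) (r R : ℝ),
        SRing (Rf v) A p l ψ r R} := by
  refine cr_mono (T := ⋃ p : ℕ, ⋃ t : Finset ℕ, ⋃ k : ℕ, SS d p t k) ?_ ?_
  · exact cr_iUnion fun p => cr_iUnion fun t => cr_iUnion fun k => ss_cr hd p t k
  · rintro v ⟨hcop, hdeg, A, p, l, ψ, r, R, hR⟩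
    obtain ⟨t, k, h1, h2⟩ := ctb hR
    exact mem_iUnion.2 ⟨p, mem_iUnion.2 ⟨t, mem_iUnion.2 ⟨k, hcop, hdeg, A, l, ψ, r, R, hR, h1, h2⟩⟩⟩

end Pool.Agent.H44.NP
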