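import Pool.Agent.H44.NP.NNC
import Pool.Agent.H44.NP.HCO
import Pool.Agent.H44.NP.LPC
import Pool.Agent.H56.RD.FAT

/-!
# THEOREM FAT+: outside countably many Lipschitz hypersurfaces of the space of rational maps the Fatou set is the union of the attracting basins
-/

set_option autoImplicit false

open Filter Topology Polynomial Metric Set MeasureTheory
open scoped NNReal

namespace Pool.Agent.H44.NP

open Pool.Agent.H44.Fatou Pool.Agent.H32.BT Pool.Agent.H79.Eul Pool.Agent.H79.Par
open Pool.Agent.H35.EX Pool.Agent.H44.RR Pool.Agent.H56.HR Pool.Agent.H44.RC Pool.Agent.H47.RJ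
open Pool.Agent.H56.RD

variable {d : ℕ}

theorem fat_cr (hd : 2 ≤ d) :
    CR (4 * d + 3) {v : E d | IsCoprime (pol v.1) (pol v.2) ∧
      max (pol v.1).natDegree (pol v.2).natDegree = d ∧
      FS (Rf v) ≠ {x | Att (Rf v) x}} := by
  refine cr_mono (cr_union (nn_cr hd) (h_cr hd)) ?_
  rintro v ⟨hcop, hdeg, hne⟩
  by_cases hN : Pool.Agent.H47.NN.NNeu v
  · right
    refine ⟨hcop, hdeg, ?_⟩
    by_contra hcon
    apply hne
    ext x
    constructor
    · intro hx
      by_contra hna
      obtain ⟨p, z0, b, ψ, hR⟩ := rot_of_nonatt (by omega) hcop hdeg hN (nw hd hcop hdeg) hx hna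
      exact hcon (ring_ex hd hcop hdeg hN hR)
    · exact fun hx => att_fs' (by omega) hcop hdeg hN hx
  · left
    exact ⟨hcop, hdeg, hN⟩

end Pool.Agent.H44.NP
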