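import Mathlib
import Pool.Agent.H44.NP.FPL
import Pool.Agent.H32.RB.Main

/-!
# For almost every rational map the Fatou set is the union of the basins of the attracting cycles

The work is in `H56/HR` (almost no rational map has a Herman ring), `H47/NN` (no neutral cycles),
`H76/SU` (Sullivan's theorem), `H47/RJ`, `H56/RD` (classification of the periodic components).
-/

set_option autoImplicit false

namespace Pool.Agent.H44.NP.FatouSet

open Polynomial Filter Topology MeasureTheory
open scoped NNReal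

/-- `f` is the rational map `P/Q` on the sphere. -/
def IsMap (f : OnePoint ℂ → OnePoint ℂ) (P Q : Polynomial ℂ) : Prop :=
  Continuous f ∧
    ∀ z : ℂ, Q.eval z ≠ 0 → f (OnePoint.some z) = OnePoint.some (P.eval z / Q.eval z)

/-- The chordal distance of the Riemann sphere. -/
noncomputable def chordal : OnePoint ℂ → OnePoint ℂ → ℝ
  | OnePoint.some z, OnePoint.some w => ‖z - w‖ / (√(1 + ‖z‖ ^ 2) * √(1 + ‖w‖ ^ 2))
  | OnePoint.some z, OnePoint.infty => 1 / √(1 + ‖z‖ ^ 2)
  | OnePoint.infty, OnePoint.some w => 1 / √(1 + ‖w‖ ^ 2)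
  | OnePoint.infty, OnePoint.infty => 0

/-- The Fatou set: the set of the interior points of the set where the iterates of `f` are
equicontinuous. -/
def fatouSet (f : OnePoint ℂ → OnePoint ℂ) : Set (OnePoint ℂ) :=
  interior {x | ∀ ε : ℝ, 0 < ε → ∀ᶠ y in 𝓝 x, ∀ n : ℕ, chordal (f^[n] x) (f^[n] y) < ε}

/-- The orbit of `x` is attracted to an attracting cycle (words of the frozen statement
`S05373`): `x` is in the basin of an attracting cycle. -/
def ToAttracting (f : OnePoint ℂ → OnePoint ℂ) (x : OnePoint ℂ) : Prop :=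
  ∃ z : OnePoint ℂ, ∃ n : ℕ, 0 < n ∧ f^[n] z = z ∧
    (∃ U ∈ nhds z, ∀ w ∈ U,
      Filter.Tendsto (fun k : ℕ => f^[n * k] w) Filter.atTop (nhds z)) ∧
    Filter.Tendsto (fun k : ℕ => f^[n * k] x) Filter.atTop (nhds z)

/-- Pairs of polynomials of degree at most `d`, given by their coefficients. -/
abbrev Pairs (d : ℕ) : Type := (Fin (d + 1) → ℂ) × (Fin (d + 1) → ℂ)

/-- The polynomial of degree at most `d` with coefficients `v`. -/
noncomputable def poly {d : ℕ} (v : Fin (d + 1) → ℂ) : Polynomial ℂ := ∑ i, C (v i) * X ^ (i : ℕ)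

/-- The rational maps of degree exactly `d`, given by the coefficients of a pair of coprime
polynomials, which have a property of maps of the sphere. -/
def MapsWith (d : ℕ) (T : (OnePoint ℂ → OnePoint ℂ) → Prop) : Set (Pairs d) :=
  {v | IsCoprime (poly v.1) (poly v.2) ∧ max (poly v.1).natDegree (poly v.2).natDegree = d ∧
    ∃ f : OnePoint ℂ → OnePoint ℂ, IsMap f (poly v.1) (poly v.2) ∧ T f}

theorem chord_eq (x y : OnePoint ℂ) : chordal x y = Pool.Agent.H35.EX.chord x y := by
  induction x using OnePoint.rec with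
  | infty =>
    induction y using OnePoint.rec with
    | infty => rfl
    | coe y => rfl
  | coe x =>
    induction y using OnePoint.rec with
    | infty => rfl
    | coe y => rfl

theorem fatou_eq (f : OnePoint ℂ → OnePoint ℂ) : fatouSet f = Pool.Agent.H56.HR.FS f := by
  unfold fatouSet Pool.Agent.H56.HR.FS Pool.Agent.H56.HR.EqAt
  simp only [chord_eq]

theorem att_eq (f : OnePoint ℂ → OnePoint ℂ) :
    {x | ToAttracting f x} = {x | Pool.Agent.H32.BT.Att f x} := by
  ext x
  constructor
  · rintro ⟨z, n, h1, h2, h3, h4⟩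
    exact ⟨z, n, ⟨h1, h2, h3⟩, h4⟩
  · rintro ⟨z, n, ⟨h1, h2, h3⟩, h4⟩
    exact ⟨z, n, h1, h2, h3, h4⟩

/-- `S` is contained in the union of the images of countably many Lipschitz maps `ℝ^n → V`. -/
def CoveredByLipschitzImages (n : ℕ) {V : Type*} [PseudoEMetricSpace V] (S : Set V) : Prop :=
  ∃ g : ℕ → (Fin n → ℝ) → V, (∀ k, ∃ K : ℝ≥0, LipschitzWith K (g k)) ∧ S ⊆ ⋃ k, Set.range (g k)

theorem exc_sub {d : ℕ} (hd : 2 ≤ d) : MapsWith d (fun f => fatouSet f ≠ {x | ToAttracting f x}) ⊆
    {v : Pool.Agent.H79.Eul.E d | IsCoprime (Pool.Agent.H79.Eul.pol v.1) (Pool.Agent.H79.Eul.pol v.2) ∧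
      max (Pool.Agent.H79.Eul.pol v.1).natDegree (Pool.Agent.H79.Eul.pol v.2).natDegree = d ∧
      Pool.Agent.H56.HR.FS (Pool.Agent.H79.Par.Rf v) ≠
        {x | Pool.Agent.H32.BT.Att (Pool.Agent.H79.Par.Rf v) x}} := by
  rintro v ⟨h1, h2, f, hf, hT⟩
  have h1' : IsCoprime (Pool.Agent.H79.Eul.pol v.1) (Pool.Agent.H79.Eul.pol v.2) := h1
  have h2' : max (Pool.Agent.H79.Eul.pol v.1).natDegree
      (Pool.Agent.H79.Eul.pol v.2).natDegree = d := h2
  have hB0 : Pool.Agent.H79.Eul.pol v.2 ≠ 0 := Pool.Agent.H32.BT.den_ne_zero h1' (by omega)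
  have hfr : f = Pool.Agent.H79.Par.Rf v := Pool.Agent.H32.RB.ext_eq h1' hB0 hf
  refine ⟨h1', h2', ?_⟩
  rw [← hfr, ← fatou_eq, ← att_eq]
  exact hT

/-- THEOREM. Let `d ≥ 2`. The rational maps of degree `d` for which the Fatou set is not exactly the
union of the basins of the attracting cycles (equivalently: with a Herman ring, a Siegel disc or a
parabolic basin; there are no wandering domains) form a set of real codimension one in the strong sense:
they are contained in the union of countably many Lipschitz images of `ℝ^(4d+3)` in the coefficient space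
`Pairs d = ℂ^(2d+2)`, of real dimension `4d+4`. So their Hausdorff dimension is at most `4d+3` (this
is sharp: the maps with a neutral cycle separate) and their Lebesgue measure is zero. -/
theorem result (d : ℕ) (hd : 2 ≤ d) :
    CoveredByLipschitzImages (4 * d + 3) (MapsWith d fun f => fatouSet f ≠ {x | ToAttracting f x}) ∧
    dimH (MapsWith d fun f => fatouSet f ≠ {x | ToAttracting f x}) ≤ ((4 * d + 3 : ℕ) : ENNReal) ∧
    volume (MapsWith d fun f => fatouSet f ≠ {x | ToAttracting f x}) = 0 := by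
  have h := Pool.Agent.H44.NP.cr_mono (Pool.Agent.H44.NP.fat_cr hd) (exc_sub hd)
  exact ⟨h, Pool.Agent.H44.NP.cr_dim h,
    measure_mono_null (exc_sub hd) (Pool.Agent.H56.RD.fat (d := d) hd)⟩

end Pool.Agent.H44.NP.FatouSet
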