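import Pool.Agent.H44.NP.ANC
import Pool.Agent.H44.NP.MFL
import Pool.Agent.H47.NN.FIN

/-!
# Module INP: periodic infinity, hyperplanes, and all neutral maps together

PROOFS. `inp_cr`: `g v = (hI d (pol v.1) (pol v.2) p).2` is analytic on `E d` (a polynomial in the coefficients: induction on `p`, `hom` is a finite sum, coefficients by `pol_coeff'`). If `(Rf v)^[p] ∞ = ∞` and `v` is generic then `g v = 0` (`hI_spec`, `pt_infty_iff`), and `g` is not 0 near `v` (`if_near`). So by `an_zero` on `ball 0 (k + 1)`,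
for all `k`, and `cr_iUnion`. `hyp1_cr`, `hyp2_cr`: `zero_cr` with `g v = v.1 i`, a nonzero continuous linear map. (`cr_mono` gives subsets.)
-/

set_option autoImplicit false

open Filter Topology Metric Set Polynomial

namespace Pool.Agent.H44.NP

open Pool.Agent.H44.Fatou Pool.Agent.H79.Eul Pool.Agent.H79.Par Pool.Agent.H47.NN

variable {d : ℕ}

private theorem hI_an (d : ℕ) (j : ℕ) :
    AnalyticOnNhd ℂ (fun v : E d => (hI d (pol v.1) (pol v.2) j).1) univ ∧
      AnalyticOnNhd ℂ (fun v : E d => (hI d (pol v.1) (pol v.2) j).2) univ := by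
  have hc1 : ∀ i : ℕ, AnalyticOnNhd ℂ (fun v : E d => (pol v.1).coeff i) univ := by
    intro i
    simp only [pol_coeff']
    split_ifs with h
    · exact ((ContinuousLinearMap.proj (R := ℂ) (φ := fun _ : Fin (d + 1) => ℂ) ⟨i, h⟩).comp
        (ContinuousLinearMap.fst ℂ (Fin (d + 1) → ℂ) (Fin (d + 1) → ℂ))).analyticOnNhd univ
    · exact analyticOnNhd_const
  have hc2 : ∀ i : ℕ, AnalyticOnNhd ℂ (fun v : E d => (pol v.2).coeff i) univ := by
    intro i
    simp only [pol_coeff']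
    split_ifs with h
    · exact ((ContinuousLinearMap.proj (R := ℂ) (φ := fun _ : Fin (d + 1) => ℂ) ⟨i, h⟩).comp
        (ContinuousLinearMap.snd ℂ (Fin (d + 1) → ℂ) (Fin (d + 1) → ℂ))).analyticOnNhd univ
    · exact analyticOnNhd_const
  induction j with
  | zero => exact ⟨analyticOnNhd_const, analyticOnNhd_const⟩
  | succ j ih =>
    obtain ⟨h1, h2⟩ := ih
    constructor
    · show AnalyticOnNhd ℂ (fun v : E d => ∑ i ∈ Finset.range (d + 1),
        (pol v.1).coeff i * (hI d (pol v.1) (pol v.2) j).1 ^ i *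
          (hI d (pol v.1) (pol v.2) j).2 ^ (d - i)) univ
      exact Finset.analyticOnNhd_fun_sum _ fun i _ => ((hc1 i).mul (h1.pow i)).mul (h2.pow (d - i))
    · show AnalyticOnNhd ℂ (fun v : E d => ∑ i ∈ Finset.range (d + 1),
        (pol v.2).coeff i * (hI d (pol v.1) (pol v.2) j).1 ^ i *
          (hI d (pol v.1) (pol v.2) j).2 ^ (d - i)) univ
      exact Finset.analyticOnNhd_fun_sum _ fun i _ => ((hc2 i).mul (h1.pow i)).mul (h2.pow (d - i))

theorem inp_cr {p : ℕ} (hp : 0 < p) :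
    CR (4 * d + 3) {v : E d | Gen d (pol v.1) (pol v.2) ∧
      (Rf v)^[p] OnePoint.infty = OnePoint.infty} := by
  refine cr_mono (T := ⋃ k : ℕ, {v : E d | v ∈ ball (0 : E d) ((k : ℝ) + 1) ∧
    (hI d (pol v.1) (pol v.2) p).2 = 0 ∧
      ¬ ∀ᶠ w : E d in 𝓝 v, (hI d (pol w.1) (pol w.2) p).2 = 0}) ?_ ?_
  · exact cr_iUnion fun k => an_zero ((hI_an d p).2.mono (subset_univ _))
  · rintro v ⟨h1, h2⟩
    obtain ⟨k, hk⟩ := exists_nat_gt ‖v‖
    refine mem_iUnion.2 ⟨k, ?_, ?_, if_near hp h1⟩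
    · rw [mem_ball_zero_iff]
      linarith
    · have h3 := (hI_spec h1.cop h1.dg_eq p).2
      rw [show rat (pol v.1) (pol v.2) = Rf v from rfl, h2] at h3
      exact pt_infty_iff.1 h3.symm

private theorem lin_cr (L : E d →L[ℂ] ℂ) (hL : L ≠ 0) {S : Set (E d)} (hS : ∀ v ∈ S, L v = 0) :
    CR (4 * d + 3) S := by
  refine zero_cr (g := L) fun v hv => ⟨hS v hv, L.differentiableAt, ?_⟩
  rw [ContinuousLinearMap.fderiv]
  exact hL

theorem hyp1_cr (i : Fin (d + 1)) : CR (4 * d + 3) {v : E d | v.1 i = 0} := by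
  refine lin_cr ((ContinuousLinearMap.proj (R := ℂ) (φ := fun _ : Fin (d + 1) => ℂ) i).comp
    (ContinuousLinearMap.fst ℂ (Fin (d + 1) → ℂ) (Fin (d + 1) → ℂ))) ?_ fun v hv => hv
  intro h
  have h1 := congrArg (fun L : E d →L[ℂ] ℂ => L ((Pi.single i 1, 0) : E d)) h
  simp at h1

theorem hyp2_cr (i : Fin (d + 1)) : CR (4 * d + 3) {v : E d | v.2 i = 0} := by
  refine lin_cr ((ContinuousLinearMap.proj (R := ℂ) (φ := fun _ : Fin (d + 1) => ℂ) i).comp
    (ContinuousLinearMap.snd ℂ (Fin (d + 1) → ℂ) (Fin (d + 1) → ℂ))) ?_ fun v hv => hv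
  intro h
  have h1 := congrArg (fun L : E d →L[ℂ] ℂ => L ((0, Pi.single i 1) : E d)) h
  simp at h1

end Pool.Agent.H44.NP
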