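import Pool.Agent.H44.NP.NPD

/-!
# Module LPA: a set on which one linear functional varies slowly is in a Lipschitz image of a hyperplane

PROOF. `c < ‖ℓ‖`: there is `e0` with `c * ‖e0‖ < |ℓ e0|` (otherwise `‖ℓ‖ ≤ c`, `ContinuousLinearMap.opNorm_le_bound`); scale: `e = (ℓ e0)⁻¹ • e0`, `ℓ e = 1`, `c * ‖e‖ < 1`. `W = ker ℓ` has `finrank n` (rank-nullity: `ℓ` is surjective onto `ℝ`), so there is a continuous linear
equivalence `A : (Fin n → ℝ) ≃L[ℝ] W` (`ContinuousLinearEquiv.ofFinrankEq`). `π x = x - ℓ x • e ∈ W`. For `x, y ∈ T`: `‖π y - π x‖ = ‖(y - x) - ℓ (y - x) • e‖ ≥ (1 - c ‖e‖) ‖y - x‖`. So on `D = {u | ∃ x ∈ T, π x = A u}` the map `u ↦ x` (choice) is Lipschitz with constant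
`‖A‖ / (1 - c ‖e‖)`; extend it with `LipschitzOnWith.extend_finite_dimension`. Every `x ∈ T` is the value at `u = A.symm (π x) ∈ D` (`π` is injective on `T` by the inequality).
-/

set_option autoImplicit false

open Filter Topology Metric Set Module
open scoped NNReal

namespace Pool.Agent.H44.NP

theorem graph_lip {V : Type*} [NormedAddCommGroup V] [NormedSpace ℝ V] [FiniteDimensional ℝ V] {n : ℕ}
    (hn : finrank ℝ V = n + 1) {T : Set V} {ℓ : V →L[ℝ] ℝ} {c : ℝ} (hc0 : 0 ≤ c) (hc : c < ‖ℓ‖)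
    (h : ∀ x ∈ T, ∀ y ∈ T, |ℓ (y - x)| ≤ c * ‖y - x‖) :
    ∃ (g : (Fin n → ℝ) → V) (K : ℝ≥0), LipschitzWith K g ∧ T ⊆ range g := by
  classical
  obtain ⟨e0, he0⟩ : ∃ e0 : V, c * ‖e0‖ < |ℓ e0| := by
    by_contra hcon
    push Not at hcon
    have h1 := ContinuousLinearMap.opNorm_le_bound ℓ hc0 (fun x => by
      rw [Real.norm_eq_abs]
      exact hcon x)
    linarith
  have hpos : 0 < |ℓ e0| := lt_of_le_of_lt (by positivity) he0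
  have hne : ℓ e0 ≠ 0 := abs_pos.1 hpos
  obtain ⟨e, he⟩ : ∃ e : V, e = (ℓ e0)⁻¹ • e0 := ⟨_, rfl⟩
  have hle : ℓ e = 1 := by
    rw [he, map_smul, smul_eq_mul, inv_mul_cancel₀ hne]
  have hce : c * ‖e‖ < 1 := by
    rw [he, norm_smul, norm_inv, Real.norm_eq_abs]
    have h1 : c * (|ℓ e0|⁻¹ * ‖e0‖) = (c * ‖e0‖) / |ℓ e0| := by
      field_simp
    rw [h1, div_lt_one hpos]
    exact he0
  -- the kernel
  have hrange : LinearMap.range (ℓ : V →ₗ[ℝ] ℝ) = ⊤ := by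
    rw [LinearMap.range_eq_top]
    intro t
    refine ⟨t • e, ?_⟩
    show ℓ (t • e) = t
    rw [map_smul, hle, smul_eq_mul, mul_one]
  have hker : finrank ℝ (Fin n → ℝ) = finrank ℝ (LinearMap.ker (ℓ : V →ₗ[ℝ] ℝ)) := by
    have h1 := LinearMap.finrank_range_add_finrank_ker (ℓ : V →ₗ[ℝ] ℝ)
    rw [hrange, finrank_top, finrank_self, hn] at h1
    rw [finrank_fin_fun]
    omega
  obtain ⟨A⟩ : Nonempty ((Fin n → ℝ) ≃L[ℝ] LinearMap.ker (ℓ : V →ₗ[ℝ] ℝ)) :=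
    ⟨ContinuousLinearEquiv.ofFinrankEq hker⟩
  obtain ⟨π, hπ⟩ : ∃ π : V → V, ∀ x, π x = x - ℓ x • e := ⟨_, fun _ => rfl⟩
  have hπker : ∀ x, π x ∈ LinearMap.ker (ℓ : V →ₗ[ℝ] ℝ) := by
    intro x
    rw [LinearMap.mem_ker, hπ]
    show ℓ (x - ℓ x • e) = 0
    rw [map_sub, map_smul, hle, smul_eq_mul, mul_one, sub_self]
  have hδ : 0 < 1 - c * ‖e‖ := by linarith
  have hlow : ∀ x ∈ T, ∀ y ∈ T, (1 - c * ‖e‖) * ‖y - x‖ ≤ ‖π y - π x‖ := by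
    intro x hx y hy
    have h1 : π y - π x = (y - x) - ℓ (y - x) • e := by
      rw [hπ, hπ, map_sub, sub_smul]
      abel
    have h2 : ‖ℓ (y - x) • e‖ ≤ c * ‖y - x‖ * ‖e‖ := by
      rw [norm_smul, Real.norm_eq_abs]
      exact mul_le_mul_of_nonneg_right (h x hx y hy) (norm_nonneg _)
    have h3 := norm_sub_norm_le (y - x) (ℓ (y - x) • e)
    rw [h1]
    linarith
  obtain ⟨D, hD⟩ : ∃ D : Set (Fin n → ℝ), D = {u | ∃ x ∈ T, π x = (A u : V)} := ⟨_, rfl⟩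
  have hG : ∀ u : Fin n → ℝ, ∃ x : V, u ∈ D → x ∈ T ∧ π x = (A u : V) := by
    intro u
    by_cases hu : u ∈ D
    · have hu' := hu
      rw [hD] at hu'
      obtain ⟨x, hx1, hx2⟩ := hu'
      exact ⟨x, fun _ => ⟨hx1, hx2⟩⟩
    · exact ⟨0, fun hu' => absurd hu' hu⟩
  choose G hG using hG
  have hLip : LipschitzOnWith (Real.toNNReal ((1 - c * ‖e‖)⁻¹ *
      ‖(A : (Fin n → ℝ) →L[ℝ] LinearMap.ker (ℓ : V →ₗ[ℝ] ℝ))‖)) G D := by
    refine LipschitzOnWith.of_dist_le_mul fun u hu u' hu' => ?_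
    obtain ⟨h1, h2⟩ := hG u hu
    obtain ⟨h3, h4⟩ := hG u' hu'
    have h5 := hlow _ h3 _ h1
    rw [h2, h4] at h5
    have h6 : ‖((A u : V)) - (A u' : V)‖ ≤
        ‖(A : (Fin n → ℝ) →L[ℝ] LinearMap.ker (ℓ : V →ₗ[ℝ] ℝ))‖ * ‖u - u'‖ := by
      have h7 := (A : (Fin n → ℝ) →L[ℝ] LinearMap.ker (ℓ : V →ₗ[ℝ] ℝ)).le_opNorm (u - u')
      rw [map_sub] at h7
      exact h7
    have h8 : ‖G u - G u'‖ ≤ (1 - c * ‖e‖)⁻¹ * (‖(A : (Fin n → ℝ) →L[ℝ]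
        LinearMap.ker (ℓ : V →ₗ[ℝ] ℝ))‖ * ‖u - u'‖) := by
      rw [le_inv_mul_iff₀ hδ]
      exact h5.trans h6
    rw [dist_eq_norm, dist_eq_norm, Real.coe_toNNReal _ (by positivity)]
    calc ‖G u - G u'‖ ≤ _ := h8
      _ = _ := by ring
  obtain ⟨g, hg1, hg2⟩ := hLip.extend_finite_dimension
  refine ⟨g, _, hg1, fun x hx => ?_⟩
  obtain ⟨u, hu⟩ : ∃ u, u = A.symm ⟨π x, hπker x⟩ := ⟨_, rfl⟩
  have hAu : (A u : V) = π x := by
    rw [hu, ContinuousLinearEquiv.apply_symm_apply]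
  have huD : u ∈ D := by
    rw [hD]
    exact ⟨x, hx, hAu.symm⟩
  obtain ⟨h1, h2⟩ := hG u huD
  refine ⟨u, ?_⟩
  rw [← hg2 huD]
  have h3 := hlow _ hx _ h1
  rw [h2, hAu, sub_self, norm_zero] at h3
  have h4 : ‖G u - x‖ ≤ 0 := by
    by_contra h5
    push Not at h5
    have := mul_pos hδ h5
    linarith
  exact sub_eq_zero.1 (norm_le_zero_iff.1 h4)

end Pool.Agent.H44.NP
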