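import Pool.Agent.H44.NP.LPA

/-!
# Module LPB: sets with a one-sided cone condition

PROOF. The dual space `V →L[ℝ] ℝ` is finite dimensional, so separable: let `ℓ j` be a dense sequence (`TopologicalSpace.denseSeq`; second countability: `FiniteDimensional.proper_real` / `secondCountable_of_proper`). Let `x ∈ S` with `ℓ, c, r`; `δ = (‖ℓ‖ - c) / 4`. Choose `j` with
`‖ℓ - ℓ j‖ < δ` and a rational `q` with `c + δ < q < c + 3 δ`: `q < ‖ℓ j‖`, and `ℓ j (y - x) ≤ q * ‖y - x‖` for `y ∈ S`, `‖y - x‖ < r`; choose `k : ℕ` with `1 / (k + 1) < r` and `m` with `‖x - x m‖ < 1 / (2 * (k + 1))` (dense sequence of `V`). So `S` is the union over `j, q, k, m` (`ι = ℕ × ℚ × ℕ × ℕ`, countable) of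
`T j q k m = {x ∈ S | 0 ≤ q ∧ q < ‖ℓ j‖ ∧ ‖x - x m‖ < 1 / (2 * (k + 1)) ∧ ∀ y ∈ S, ‖y - x‖ < 1 / (k + 1) → ℓ j (y - x) ≤ q * ‖y - x‖}`. For `x, y ∈ T j q k m`: `‖y - x‖ < 1 / (k + 1)`, so `ℓ j (y - x) ≤ q ‖y - x‖` and `ℓ j (x - y) ≤ q ‖x - y‖`: `|ℓ j (y - x)| ≤ q ‖y - x‖`. If `T` is nonempty apply `graph_lip`
and `cr_one`, otherwise `cr_empty`; then `cr_iUnion`.
-/

set_option autoImplicit false

open Filter Topology Metric Set Module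
open scoped NNReal

namespace Pool.Agent.H44.NP

theorem cone_cr {V : Type*} [NormedAddCommGroup V] [NormedSpace ℝ V] [FiniteDimensional ℝ V] {n : ℕ}
    (hn : finrank ℝ V = n + 1) {S : Set V}
    (h : ∀ x ∈ S, ∃ (ℓ : V →L[ℝ] ℝ) (c r : ℝ), 0 ≤ c ∧ c < ‖ℓ‖ ∧ 0 < r ∧
      ∀ y ∈ S, ‖y - x‖ < r → ℓ (y - x) ≤ c * ‖y - x‖) : CR n S := by
  have : ProperSpace (V →L[ℝ] ℝ) := FiniteDimensional.proper_real _
  have : ProperSpace V := FiniteDimensional.proper_real _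
  obtain ⟨L, hL⟩ := TopologicalSpace.exists_dense_seq (V →L[ℝ] ℝ)
  obtain ⟨X, hX⟩ := TopologicalSpace.exists_dense_seq V
  obtain ⟨T, hT⟩ : ∃ T : ℕ × ℚ × ℕ × ℕ → Set V, ∀ j q k m x, x ∈ T (j, q, k, m) ↔
      x ∈ S ∧ (0 : ℝ) ≤ q ∧ (q : ℝ) < ‖L j‖ ∧ ‖x - X m‖ < 1 / (2 * ((k : ℝ) + 1)) ∧
        ∀ y ∈ S, ‖y - x‖ < 1 / ((k : ℝ) + 1) → L j (y - x) ≤ q * ‖y - x‖ :=
    ⟨fun i => {x | x ∈ S ∧ (0 : ℝ) ≤ i.2.1 ∧ (i.2.1 : ℝ) < ‖L i.1‖ ∧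
      ‖x - X i.2.2.2‖ < 1 / (2 * ((i.2.2.1 : ℝ) + 1)) ∧
        ∀ y ∈ S, ‖y - x‖ < 1 / ((i.2.2.1 : ℝ) + 1) → L i.1 (y - x) ≤ i.2.1 * ‖y - x‖},
      fun _ _ _ _ _ => Iff.rfl⟩
  have hCR : ∀ i, CR n (T i) := by
    rintro ⟨j, q, k, m⟩
    rcases (T (j, q, k, m)).eq_empty_or_nonempty with he | ⟨x0, hx0⟩
    · rw [he]
      exact cr_empty
    · obtain ⟨-, hq0, hq1, -, -⟩ := (hT j q k m x0).1 hx0
      obtain ⟨g, K, hg, hS⟩ := graph_lip hn (T := T (j, q, k, m)) (ℓ := L j) (c := q) hq0 hq1 (by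
        intro x hx y hy
        obtain ⟨hxS, -, -, hx1, hx2⟩ := (hT j q k m x).1 hx
        obtain ⟨hyS, -, -, hy1, hy2⟩ := (hT j q k m y).1 hy
        have hk : (0 : ℝ) < (k : ℝ) + 1 := by positivity
        have hsum : 1 / (2 * ((k : ℝ) + 1)) + 1 / (2 * ((k : ℝ) + 1)) = 1 / ((k : ℝ) + 1) := by
          field_simp
          norm_num
        have h1 : ‖y - x‖ < 1 / ((k : ℝ) + 1) := by
          have h2 : y - x = (y - X m) - (x - X m) := by abel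
          have h3 := norm_sub_le (y - X m) (x - X m)
          rw [← h2] at h3
          linarith
        have h2 : ‖x - y‖ = ‖y - x‖ := norm_sub_rev x y
        have h3 := hx2 y hyS h1
        have h4 := hy2 x hxS (by rw [h2]; exact h1)
        have h5 : L j (x - y) = - L j (y - x) := by
          rw [← map_neg, neg_sub]
        rw [h5, h2] at h4
        exact abs_le.2 ⟨by linarith, h3⟩)
      exact cr_one hg hS
  refine cr_mono (cr_iUnion hCR) ?_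
  intro x hx
  obtain ⟨ℓ, c, r, hc0, hc, hr, hcone⟩ := h x hx
  obtain ⟨δ, hδ⟩ : ∃ δ : ℝ, δ = (‖ℓ‖ - c) / 4 := ⟨_, rfl⟩
  have hδ0 : 0 < δ := by rw [hδ]; linarith
  obtain ⟨j, hj⟩ := hL.exists_dist_lt ℓ hδ0
  obtain ⟨q, hq1, hq2⟩ := exists_rat_btwn (by linarith : c + δ < c + 3 * δ)
  obtain ⟨k, hk⟩ := exists_nat_one_div_lt hr
  obtain ⟨m, hm⟩ := hX.exists_dist_lt x (by positivity : (0 : ℝ) < 1 / (2 * ((k : ℝ) + 1)))
  rw [dist_eq_norm] at hj hm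
  refine mem_iUnion.2 ⟨(j, q, k, m), (hT j q k m x).2 ⟨hx, by linarith, ?_, hm, ?_⟩⟩
  · have h1 := norm_sub_norm_le ℓ (L j)
    have h2 : ‖ℓ‖ = c + 4 * δ := by rw [hδ]; ring
    linarith
  · intro y hy hyx
    have h1 := hcone y hy (hyx.trans hk)
    have h2 : L j (y - x) = ℓ (y - x) - (ℓ - L j) (y - x) := by
      rw [ContinuousLinearMap.sub_apply]
      ring
    have h3 : |(ℓ - L j) (y - x)| ≤ δ * ‖y - x‖ := by
      have h4 := (ℓ - L j).le_opNorm (y - x)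
      rw [Real.norm_eq_abs] at h4
      exact h4.trans (mul_le_mul_of_nonneg_right hj.le (norm_nonneg _))
    have h5 := (abs_le.1 h3).1
    have h6 : (c + δ) * ‖y - x‖ ≤ q * ‖y - x‖ :=
      mul_le_mul_of_nonneg_right hq1.le (norm_nonneg _)
    rw [h2]
    linarith

/-- the form which is used: tangent to a hyperplane -/
theorem tang_cr {V : Type*} [NormedAddCommGroup V] [NormedSpace ℝ V] [FiniteDimensional ℝ V] {n : ℕ}
    (hn : finrank ℝ V = n + 1) {S : Set V}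
    (h : ∀ x ∈ S, ∃ ℓ : V →L[ℝ] ℝ, ℓ ≠ 0 ∧ ∀ ε : ℝ, 0 < ε → ∃ r : ℝ, 0 < r ∧
      ∀ y ∈ S, ‖y - x‖ < r → ℓ (y - x) ≤ ε * ‖y - x‖) : CR n S := by
  refine cone_cr hn fun x hx => ?_
  obtain ⟨ℓ, h1, h2⟩ := h x hx
  have h3 : 0 < ‖ℓ‖ := norm_pos_iff.2 h1
  obtain ⟨r, hr, h4⟩ := h2 (‖ℓ‖ / 2) (by positivity)
  exact ⟨ℓ, ‖ℓ‖ / 2, r, by positivity, by linarith, hr, h4⟩

end Pool.Agent.H44.NP
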