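import Pool.Agent.H44.NP.ANC
import Pool.Agent.H44.NP.IFT
import Pool.Agent.H44.NP.DZI
import Pool.Agent.H44.NP.MFL

/-!
# Module NEU: the maps with a neutral cycle

`TJ p j`: the pairs (generic map, point of a neutral cycle of period `p` where `f^p - id` vanishes to the exact order `j + 1`).

PROOFS. `tj_loc`: `q0 = (v0, z0) ∈ TJ p j`. `h = Dz^[j] (hz p)` vanishes at `q0` (for `j = 0` this is `hz p q0 = 0`), `Dz h q0 ≠ 0`. `ift` with `N = Gp p`: `r, ζ`. Let `g1 v = hz p (v, ζ v)`, `g2 v = mu p (v, ζ v)`, analytic on `ball v0 r`. If `(v, z) ∈ TJ p j`, `v ∈ ball v0 r`, `z ∈ ball z0 r`: `h (v, z) = 0`, so `z = ζ v`,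
`g1 v = 0`, `‖g2 v‖ = 1`. If `g1` vanishes near `v` and `g2` is constant `m = g2 v` near `v`, then all `w` near `v` have the cycle of `ζ w` (`wi_cyc`) with multiplier `m`, `‖m‖ = 1`: contradiction with `mf_near`. So `v` is in the set of `an_zero` for `g1` or in the set of `an_circ` for `g2`. `U = ball v0 r ×ˢ ball z0 r`.
`neu_cr`: `{v | Gen, neutral cycle of period p}` is contained in the union over `j` of `Prod.fst '' TJ p j`: the cycle `x`, `q = (v, x 0)` (`cyc_wi`), let `k` be minimal with `(Dz^[k] (hz p)) q ≠ 0` (`hz_ord`; `Gen` gives degree `d`), `k ≥ 1` since `hz p q = 0`; `j = k - 1`. `cr_proj` and `tj_loc`.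
-/

set_option autoImplicit false

open Filter Topology Metric Set Polynomial

namespace Pool.Agent.H44.NP

open Pool.Agent.H44.Fatou Pool.Agent.H79.Eul Pool.Agent.H79.Par Pool.Agent.H47.NN

variable {d : ℕ}

/-- generic maps with a marked point of a neutral cycle, of exact order `j + 1` -/
def TJ (p j : ℕ) : Set (E d × ℂ) :=
  {q | Gen d (pol q.1.1) (pol q.1.2) ∧ q ∈ Gp p ∧ ‖mu p q‖ = 1 ∧
    (∀ i, i ≤ j → (Dz^[i] (hz p)) q = 0) ∧ (Dz^[j + 1] (hz p)) q ≠ 0}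

theorem tj_loc {p : ℕ} (hp : 0 < p) (j : ℕ) {q : E d × ℂ} (hq : q ∈ TJ p j) :
    ∃ U ∈ 𝓝 q, CR (4 * d + 3) (Prod.fst '' (TJ p j ∩ U)) := by
  obtain ⟨-, hG, -, hz0, hz1⟩ := hq
  have hA : AnalyticOnNhd ℂ (Dz^[j] (hz p)) (Gp p : Set (E d × ℂ)) := dz_it (hz_an p) j
  have h1 : fderiv ℂ (Dz^[j] (hz p)) q (0, 1) ≠ 0 := by
    rw [Function.iterate_succ_apply'] at hz1
    exact hz1
  obtain ⟨r, ζ, hr, hζ, hin, huni⟩ := ift (hA q hG) (hz0 j le_rfl) h1 ((gp_open p).mem_nhds hG)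
  have hpair : ∀ v ∈ ball q.1 r, AnalyticAt ℂ (fun w : E d => ((w, ζ w) : E d × ℂ)) v :=
    fun v hv => analyticAt_id.prod (hζ v hv)
  have hg1 : AnalyticOnNhd ℂ (fun w : E d => hz p (w, ζ w)) (ball q.1 r) := fun v hv =>
    AnalyticAt.fun_comp (f := fun w : E d => ((w, ζ w) : E d × ℂ)) (x := v)
      (hz_an p (v, ζ v) (hin v hv).1) (hpair v hv)
  have hg2 : AnalyticOnNhd ℂ (fun w : E d => mu p (w, ζ w)) (ball q.1 r) := fun v hv =>
    AnalyticAt.fun_comp (f := fun w : E d => ((w, ζ w) : E d × ℂ)) (x := v)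
      (mu_an p (q := (v, ζ v)) (hin v hv).1) (hpair v hv)
  refine ⟨ball q.1 r ×ˢ ball q.2 r, prod_mem_nhds (ball_mem_nhds _ hr) (ball_mem_nhds _ hr), ?_⟩
  refine cr_mono (cr_union (an_zero hg1) (an_circ hg2)) ?_
  rintro _ ⟨⟨v, z⟩, ⟨⟨hgen, -, hmu, hzz, -⟩, hvb, hzb⟩, rfl⟩
  have hvb' : v ∈ ball q.1 r := hvb
  have hzζ : z = ζ v := huni v hvb' z hzb (hzz j le_rfl)
  subst hzζ
  show v ∈ _ ∪ _
  by_cases hc1 : ∀ᶠ w in 𝓝 v, hz p (w, ζ w) = 0
  · by_cases hc2 : ∀ᶠ w in 𝓝 v, mu p (w, ζ w) = mu p (v, ζ v)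
    · exfalso
      refine mf_near hp hgen hmu ?_
      filter_upwards [hc1, hc2, isOpen_ball.mem_nhds hvb'] with w hw1 hw2 hwb
      refine ⟨fun i => wi i (w, ζ w), ?_⟩
      have := wi_cyc (hin w hwb).1 (sub_eq_zero.1 hw1)
      rw [hw2] at this
      exact this
    · exact Or.inr ⟨hvb', hmu, hc2⟩
  · exact Or.inl ⟨hvb', hzz 0 (Nat.zero_le _), hc1⟩

theorem neu_cr (hd : 2 ≤ d) {p : ℕ} (hp : 0 < p) : CR (4 * d + 3) (BS d p) := by
  classical
  refine cr_mono (cr_iUnion (ι := ℕ) (S := fun j => Prod.fst '' (TJ p j : Set (E d × ℂ)))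
    fun j => cr_proj fun q hq => tj_loc hp j hq) ?_
  rintro v ⟨hgen, x, m, hx, hm⟩
  obtain ⟨h1, h2, h3⟩ := cyc_wi hx
  have hex := hz_ord hp hd h1 hgen.cop (by rw [hgen.ha, hgen.hb, max_self])
  set k := Nat.find hex with hk
  have hk1 : (Dz^[k] (hz p)) (v, x 0) ≠ 0 := Nat.find_spec hex
  have hk0 : k ≠ 0 := by
    intro h0
    rw [h0] at hk1
    exact hk1 (sub_eq_zero.2 h2)
  obtain ⟨j, hj⟩ := Nat.exists_eq_succ_of_ne_zero hk0
  refine mem_iUnion.2 ⟨j, (v, x 0), ⟨hgen, h1, by rw [h3]; exact hm, fun i hi => ?_, ?_⟩, rfl⟩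
  · by_contra hne
    have := Nat.find_min' hex hne
    omega
  · rw [hj] at hk1
    exact hk1

end Pool.Agent.H44.NP
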