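import Pool.Agent.H44.NP.NEU
import Pool.Agent.H44.NP.INP

/-!
# Module NNC: the maps with a neutral cycle

PROOF. As `nn` in H47/NN/FIN: the set is contained in the union of the four hyperplanes `v.1 (Fin.last d) = 0`, `v.2 (Fin.last d) = 0`, `v.1 0 = 0`, `v.2 0 = 0` (`hyp1_cr`, `hyp2_cr`) and, over `p`, of the sets of `inp_cr` and `neu_cr` for the period `p + 1` (copy the inclusion `hsub` and the private lemma `gen_of` from H47/NN/FIN).
-/

set_option autoImplicit false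

open Filter Topology Metric Set Polynomial

namespace Pool.Agent.H44.NP

open Pool.Agent.H44.Fatou Pool.Agent.H79.Eul Pool.Agent.H79.Par Pool.Agent.H47.NN

variable {d : ℕ}

private theorem gen_of {d : ℕ} {v : E d} (hc : IsCoprime (pol v.1) (pol v.2))
    (h1 : v.1 (Fin.last d) ≠ 0) (h2 : v.2 (Fin.last d) ≠ 0) (h3 : v.1 0 ≠ 0) (h4 : v.2 0 ≠ 0) :
    Gen d (pol v.1) (pol v.2) where
  cop := hc
  ha := by
    refine natDegree_eq_of_le_of_coeff_ne_zero (pol_deg _) ?_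
    have := pol_coeff v.1 (Fin.last d)
    rw [Fin.val_last] at this
    rw [this]
    exact h1
  hb := by
    refine natDegree_eq_of_le_of_coeff_ne_zero (pol_deg _) ?_
    have := pol_coeff v.2 (Fin.last d)
    rw [Fin.val_last] at this
    rw [this]
    exact h2
  a0 := by
    rw [← coeff_zero_eq_eval_zero]
    have := pol_coeff v.1 0
    rw [Fin.val_zero] at this
    rw [this]
    exact h3
  b0 := by
    rw [← coeff_zero_eq_eval_zero]
    have := pol_coeff v.2 0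
    rw [Fin.val_zero] at this
    rw [this]
    exact h4

theorem nn_cr (hd : 2 ≤ d) :
    CR (4 * d + 3) {v : E d | IsCoprime (pol v.1) (pol v.2) ∧
      max (pol v.1).natDegree (pol v.2).natDegree = d ∧ ¬ NNeu v} := by
  have hsub : {v : E d | IsCoprime (pol v.1) (pol v.2) ∧
      max (pol v.1).natDegree (pol v.2).natDegree = d ∧ ¬ NNeu v} ⊆
      (({v : E d | v.1 (Fin.last d) = 0} ∪ {v : E d | v.2 (Fin.last d) = 0}) ∪
        ({v : E d | v.1 0 = 0} ∪ {v : E d | v.2 0 = 0})) ∪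
      ⋃ p : ℕ, ({v : E d | Gen d (pol v.1) (pol v.2) ∧
        (Rf v)^[p + 1] OnePoint.infty = OnePoint.infty} ∪ BS d (p + 1)) := by
    rintro v ⟨hc, -, hn⟩
    by_cases h1 : v.1 (Fin.last d) = 0
    · exact Or.inl (Or.inl (Or.inl h1))
    by_cases h2 : v.2 (Fin.last d) = 0
    · exact Or.inl (Or.inl (Or.inr h2))
    by_cases h3 : v.1 0 = 0
    · exact Or.inl (Or.inr (Or.inl h3))
    by_cases h4 : v.2 0 = 0
    · exact Or.inl (Or.inr (Or.inr h4))
    have hg := gen_of hc h1 h2 h3 h4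
    refine Or.inr ?_
    by_cases h5 : ∀ p : ℕ, 0 < p → (Rf v)^[p] OnePoint.infty ≠ OnePoint.infty
    · have h6 : ¬ ∀ p : ℕ, 0 < p → ∀ x m, Cyc (pol v.1) (pol v.2) p x m → ‖m‖ ≠ 1 :=
        fun h => hn ⟨h5, h⟩
      push Not at h6
      obtain ⟨p, hp, x, m, h7, h8⟩ := h6
      obtain ⟨q, rfl⟩ : ∃ q, p = q + 1 := ⟨p - 1, by omega⟩
      exact Set.mem_iUnion.2 ⟨q, Or.inr ⟨hg, x, m, h7, h8⟩⟩
    · push Not at h5
      obtain ⟨p, hp, h7⟩ := h5
      obtain ⟨q, rfl⟩ : ∃ q, p = q + 1 := ⟨p - 1, by omega⟩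
      exact Set.mem_iUnion.2 ⟨q, Or.inl ⟨hg, h7⟩⟩
  refine cr_mono ?_ hsub
  refine cr_union (cr_union (cr_union (hyp1_cr _) (hyp2_cr _)) (cr_union (hyp1_cr _) (hyp2_cr _)))
    (cr_iUnion fun p => cr_union (inp_cr (Nat.succ_pos p)) (neu_cr hd (Nat.succ_pos p)))

end Pool.Agent.H44.NP
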