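import Mathlib

/-!
# FAT+: sets covered by countably many Lipschitz images of `ℝ^n`

PROOFS. `cr_iUnion`: for countable `ι` (empty: constant maps, use `Nonempty V`): `Countable ι` gives `f : ι → ℕ` injective, or `Encodable`; the functions `(i, k) ↦ g i k` are indexed by a countable nonempty type, use a surjection `ℕ → ι × ℕ` (`exists_surjective_nat`).
`cr_loc`: `TopologicalSpace.countable_cover_nhdsWithin` (Lindelof): countably many of the neighbourhoods cover `S`. `cr_proj`: the same in the product space, `Prod.fst '' T = ⋃ Prod.fst '' (T ∩ U q)`.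
-/

set_option autoImplicit false

open Filter Topology Metric Set
open scoped NNReal

namespace Pool.Agent.H44.NP

/-- `S` is covered by countably many Lipschitz images of `ℝ^n` -/
def CR (n : ℕ) {V : Type*} [PseudoEMetricSpace V] (S : Set V) : Prop :=
  ∃ g : ℕ → (Fin n → ℝ) → V, (∀ k, ∃ K : ℝ≥0, LipschitzWith K (g k)) ∧ S ⊆ ⋃ k, range (g k)

variable {n : ℕ} {V W : Type*}

theorem cr_mono [PseudoEMetricSpace V] {S T : Set V} (h : CR n T) (hS : S ⊆ T) : CR n S := by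
  obtain ⟨g, h1, h2⟩ := h
  exact ⟨g, h1, hS.trans h2⟩

theorem cr_empty [PseudoEMetricSpace V] [Nonempty V] : CR n (∅ : Set V) :=
  ⟨fun _ _ => Classical.arbitrary V, fun _ => ⟨0, LipschitzWith.const _⟩, empty_subset _⟩

/-- one Lipschitz image -/
theorem cr_one [PseudoEMetricSpace V] {S : Set V} {g : (Fin n → ℝ) → V} {K : ℝ≥0}
    (hg : LipschitzWith K g) (hS : S ⊆ range g) : CR n S :=
  ⟨fun _ => g, fun _ => ⟨K, hg⟩, hS.trans (subset_iUnion (fun _ : ℕ => range g) 0)⟩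

theorem cr_iUnion [PseudoEMetricSpace V] [Nonempty V] {ι : Type*} [Countable ι] {S : ι → Set V}
    (h : ∀ i, CR n (S i)) : CR n (⋃ i, S i) := by
  rcases isEmpty_or_nonempty ι with hι | hι
  · rw [iUnion_of_empty]
    exact cr_empty
  · choose g hg hS using h
    obtain ⟨f, hf⟩ := exists_surjective_nat (ι × ℕ)
    refine ⟨fun m => g (f m).1 (f m).2, fun m => hg _ _, ?_⟩
    intro x hx
    obtain ⟨i, hi⟩ := mem_iUnion.1 hx
    obtain ⟨k, hk⟩ := mem_iUnion.1 (hS i hi)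
    obtain ⟨m, hm⟩ := hf (i, k)
    refine mem_iUnion.2 ⟨m, ?_⟩
    show x ∈ range (g (f m).1 (f m).2)
    rw [hm]
    exact hk

theorem cr_union [PseudoEMetricSpace V] [Nonempty V] {S T : Set V} (h : CR n S) (h' : CR n T) :
    CR n (S ∪ T) := by
  rw [union_eq_iUnion]
  exact cr_iUnion fun b => by cases b <;> assumption

/-- localization -/
theorem cr_loc [PseudoEMetricSpace V] [Nonempty V] [SecondCountableTopology V] {S : Set V}
    (h : ∀ x ∈ S, ∃ U ∈ 𝓝 x, CR n (S ∩ U)) : CR n S := by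
  have h' : ∀ x : V, ∃ U : Set V, x ∈ S → U ∈ 𝓝 x ∧ CR n (S ∩ U) := by
    intro x
    by_cases hx : x ∈ S
    · obtain ⟨U, hU, hC⟩ := h x hx
      exact ⟨U, fun _ => ⟨hU, hC⟩⟩
    · exact ⟨univ, fun hx' => absurd hx' hx⟩
  choose U hU using h'
  obtain ⟨t, hts, htc, hcov⟩ := TopologicalSpace.countable_cover_nhdsWithin (f := U) (s := S)
    (fun x hx => mem_nhdsWithin_of_mem_nhds (hU x hx).1)
  have : Countable t := htc.to_subtype
  refine cr_mono (cr_iUnion (ι := t) (S := fun x => S ∩ U x.1) fun x => (hU x.1 (hts x.2)).2) ?_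
  intro x hx
  obtain ⟨y, hy, hxy⟩ := mem_iUnion₂.1 (hcov hx)
  exact mem_iUnion.2 ⟨⟨y, hy⟩, hx, hxy⟩

/-- localization upstairs -/
theorem cr_proj [PseudoEMetricSpace V] [Nonempty V] [SecondCountableTopology V]
    [TopologicalSpace W] [SecondCountableTopology W] {T : Set (V × W)}
    (h : ∀ q ∈ T, ∃ U ∈ 𝓝 q, CR n (Prod.fst '' (T ∩ U))) : CR n (Prod.fst '' T) := by
  have h' : ∀ q : V × W, ∃ U : Set (V × W), q ∈ T → U ∈ 𝓝 q ∧ CR n (Prod.fst '' (T ∩ U)) := by
    intro x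
    by_cases hx : x ∈ T
    · obtain ⟨U, hU, hC⟩ := h x hx
      exact ⟨U, fun _ => ⟨hU, hC⟩⟩
    · exact ⟨univ, fun hx' => absurd hx' hx⟩
  choose U hU using h'
  obtain ⟨t, hts, htc, hcov⟩ := TopologicalSpace.countable_cover_nhdsWithin (f := U) (s := T)
    (fun x hx => mem_nhdsWithin_of_mem_nhds (hU x hx).1)
  have : Countable t := htc.to_subtype
  refine cr_mono (cr_iUnion (ι := t) (S := fun q => Prod.fst '' (T ∩ U q.1))
    fun x => (hU x.1 (hts x.2)).2) ?_
  rintro _ ⟨x, hx, rfl⟩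
  obtain ⟨y, hy, hxy⟩ := mem_iUnion₂.1 (hcov hx)
  exact mem_iUnion.2 ⟨⟨y, hy⟩, x, ⟨hx, hxy⟩, rfl⟩

end Pool.Agent.H44.NP
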